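import Pool.Agent.Lib.Helper92.PerfectFree

/-!
Modules of finite projective dimension over a local ring `R`, on which a maximal `R`-regular
sequence is regular, are free.
-/

set_option autoImplicit false
open CategoryTheory CategoryTheory.Abelian

namespace Pool.Agent.Lib.Helper92
universe u
variable {R : Type u} [CommRing R]

/-- elementwise form of weak regularity of `x_0, …, x_{k-1}` on `M`. -/
def WReg (M : Type u) [AddCommGroup M] [Module R M] (x : ℕ → R) (k : ℕ) : Prop :=
  ∀ j < k, ∀ m : M, x j • m ∈ Jx x j • (⊤ : Submodule R M) → m ∈ Jx x j • (⊤ : Submodule R M)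

lemma mem_step_smul {M : Type u} [AddCommGroup M] [Module R M] (N : Submodule R M) (x : ℕ → R)
    (k : ℕ) (v : M) : v ∈ Jx x (k + 1) • N ↔ ∃ a ∈ Jx x k • N, ∃ g ∈ N, v = a + x k • g := by
  change v ∈ (Jx x k ⊔ Ideal.span {x k}) • N ↔ _
  rw [Submodule.sup_smul, Submodule.mem_sup]
  constructor
  · rintro ⟨a, ha, b, hb, rfl⟩
    rw [Submodule.ideal_span_singleton_smul, Submodule.mem_smul_pointwise_iff_exists] at hb
    obtain ⟨g, hg, rfl⟩ := hb
    exact ⟨a, ha, g, hg, rfl⟩
  · rintro ⟨a, ha, g, hg, rfl⟩
    exact ⟨a, ha, x k • g, Submodule.smul_mem_smul (Ideal.mem_span_singleton_self _) hg, rfl⟩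

lemma wreg_inter {F X : Type u} [AddCommGroup F] [Module R F] [AddCommGroup X] [Module R X]
    (f : F →ₗ[R] X) (hf : Function.Surjective f) (x : ℕ → R) (k : ℕ) (hX : WReg X x k) (v : F)
    (hv : v ∈ LinearMap.ker f) (hv' : v ∈ Jx x k • (⊤ : Submodule R F)) :
    v ∈ Jx x k • LinearMap.ker f := by
  induction k generalizing v with
  | zero =>
    have : v = 0 := by simpa [Jx] using hv'
    rw [this]; exact Submodule.zero_mem _
  | succ k ih =>
    obtain ⟨a, ha, g, -, rfl⟩ := (mem_step_smul _ x k v).mp hv'
    have hmap : Submodule.map f (Jx x k • (⊤ : Submodule R F)) = Jx x k • (⊤ : Submodule R X) := by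
      rw [Submodule.map_smul'', Submodule.map_top, LinearMap.range_eq_top.mpr hf]
    have hfa : f a ∈ Jx x k • (⊤ : Submodule R X) := by
      rw [← hmap]; exact Submodule.mem_map_of_mem ha
    have h1 : x k • f g = - f a := by
      have : f (a + x k • g) = 0 := hv
      rw [map_add, map_smul] at this
      exact eq_neg_of_add_eq_zero_right this
    have h2 : f g ∈ Jx x k • (⊤ : Submodule R X) := by
      apply hX k (by omega)
      rw [h1]; exact Submodule.neg_mem _ hfa
    rw [← hmap] at h2
    obtain ⟨g', hg', hgg'⟩ := h2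
    have hκ : g - g' ∈ LinearMap.ker f := by
      rw [LinearMap.mem_ker, map_sub, hgg', sub_self]
    have h3 : a + x k • g' ∈ LinearMap.ker f := by
      have : a + x k • g' = (a + x k • g) - x k • (g - g') := by
        rw [smul_sub]; abel
      rw [this]
      exact Submodule.sub_mem _ hv (Submodule.smul_mem _ _ hκ)
    have h4 := ih (fun j hj => hX j (by omega)) (a + x k • g') h3
      (Submodule.add_mem _ ha (Submodule.smul_mem _ _ hg'))
    refine (mem_step_smul _ x k _).mpr ⟨a + x k • g', h4, g - g', hκ, ?_⟩
    rw [smul_sub]; abel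

lemma wreg_ker {F X : Type u} [AddCommGroup F] [Module R F] [AddCommGroup X] [Module R X]
    (f : F →ₗ[R] X) (hf : Function.Surjective f) (x : ℕ → R) (k : ℕ) (hX : WReg X x k)
    (hF : WReg F x k) : WReg (LinearMap.ker f) x k := by
  intro j hj m hm
  have hmap : Submodule.map (LinearMap.ker f).subtype
      (Jx x j • (⊤ : Submodule R (LinearMap.ker f))) = Jx x j • LinearMap.ker f := by
    rw [Submodule.map_smul'', Submodule.map_subtype_top]
  have h1 : x j • (m : F) ∈ Jx x j • LinearMap.ker f := by
    rw [← hmap]; exact Submodule.mem_map_of_mem (f := (LinearMap.ker f).subtype) hm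
  have h2 : (m : F) ∈ Jx x j • (⊤ : Submodule R F) :=
    hF j hj m (Submodule.smul_mono le_rfl le_top h1)
  have h3 := wreg_inter f hf x j (fun i hi => hX i (by omega)) m m.2 h2
  rw [← hmap] at h3
  obtain ⟨m', hm', hmm'⟩ := h3
  have : m' = m := Subtype.ext hmm'
  rwa [this] at hm'

lemma wreg_pi (x : ℕ → R) (k : ℕ) (hR : WReg R x k) (b : ℕ) : WReg (Fin b → R) x k := by
  intro j hj m hm
  have key : ∀ v : Fin b → R, v ∈ Jx x j • (⊤ : Submodule R (Fin b → R)) ↔ ∀ i, v i ∈ Jx x j := by
    intro v
    constructor
    · intro hv i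
      have := Submodule.mem_map_of_mem (f := LinearMap.proj (R := R) (φ := fun _ : Fin b => R) i) hv
      rw [Submodule.map_smul''] at this
      have h2 := Submodule.smul_mono (le_refl (Jx x j)) (le_top : Submodule.map
        (LinearMap.proj (R := R) (φ := fun _ : Fin b => R) i) ⊤ ≤ ⊤) this
      rwa [smul_eq_mul, Ideal.mul_top] at h2
    · intro hv
      rw [← Finset.univ_sum_single v]
      refine Submodule.sum_mem _ fun i _ => ?_
      have : Pi.single i (v i) = v i • (Pi.single i 1 : Fin b → R) := by
        rw [← Pi.single_smul, smul_eq_mul, mul_one]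
      rw [this]
      exact Submodule.smul_mem_smul (hv i) Submodule.mem_top
  rw [key] at hm ⊢
  intro i
  have h1 : Jx x j • (⊤ : Submodule R R) = Jx x j := by
    rw [smul_eq_mul]; exact Ideal.mul_top _
  have := hR j hj (m i)
  rw [h1] at this
  exact this (hm i)

/-- existence of minimal presentations over a local ring. -/
lemma exists_minimal_presentation [IsLocalRing R] (X : Type u) [AddCommGroup X] [Module R X]
    [Module.Finite R X] :
    ∃ (b : ℕ) (f : (Fin b → R) →ₗ[R] X), Function.Surjective f ∧
      ∀ v ∈ LinearMap.ker f, ∀ i, v i ∈ IsLocalRing.maximalIdeal R := by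
  classical
  have hex : ∃ b : ℕ, ∃ f : (Fin b → R) →ₗ[R] X, Function.Surjective f := Module.Finite.exists_fin' R X
  obtain ⟨f, hf⟩ := Nat.find_spec hex
  have hmin : ∀ b' < Nat.find hex, ¬ ∃ f : (Fin b' → R) →ₗ[R] X, Function.Surjective f :=
    fun b' hb' => Nat.find_min hex hb'
  refine ⟨Nat.find hex, f, hf, ?_⟩
  generalize Nat.find hex = b at f hf hmin
  intro v hv i
  by_contra hvi
  have hunit : IsUnit (v i) := by
    by_contra h
    exact hvi h
  obtain ⟨u, hu⟩ := hunit
  rcases b with _ | b
  · exact i.elim0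
  apply hmin b (by omega)
  -- drop the `i`-th coordinate
  let s : (Fin b → R) →ₗ[R] (Fin (b + 1) → R) :=
    LinearMap.pi fun j => if h : j = i then 0 else
      LinearMap.proj ((Fin.exists_succAbove_eq h).choose)
  have hs : ∀ w : Fin (b + 1) → R, w i = 0 → s (fun j => w (i.succAbove j)) = w := by
    intro w hw
    ext j
    simp only [s, LinearMap.pi_apply]
    by_cases h : j = i
    · rw [dif_pos h, h, hw]; rfl
    · rw [dif_neg h, LinearMap.proj_apply, (Fin.exists_succAbove_eq h).choose_spec]
  refine ⟨f ∘ₗ s, ?_⟩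
  intro y
  obtain ⟨w, rfl⟩ := hf y
  let w' : Fin (b + 1) → R := w - (w i * ((u⁻¹ : Rˣ) : R)) • v
  have hw'i : w' i = 0 := by
    simp only [w', Pi.sub_apply, Pi.smul_apply, smul_eq_mul]
    rw [← hu, mul_assoc, Units.inv_mul, mul_one, sub_self]
  refine ⟨fun j => w' (i.succAbove j), ?_⟩
  rw [LinearMap.comp_apply, hs w' hw'i]
  simp only [w']
  rw [map_sub, map_smul, show f v = 0 from hv, smul_zero, sub_zero]

/-- **Lemma L1**. -/
theorem free_of_pd [IsNoetherianRing R] [IsLocalRing R] (x : ℕ → R) (k : ℕ) (hR : WReg R x k)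
    (c : R) (hc : c ∉ Jx x k) (hcm : ∀ a ∈ IsLocalRing.maximalIdeal R, a * c ∈ Jx x k) (n : ℕ)
    (X : Type u) [AddCommGroup X] [Module R X] [Module.Finite R X] (hX : WReg X x k)
    (hpd : HasProjectiveDimensionLT (ModuleCat.of R X) n) : Module.Free R X := by
  induction n using Nat.strong_induction_on generalizing X with
  | _ n ih =>
  rcases n with _ | _ | n
  · have h0 := (hasProjectiveDimensionLT_zero_iff_isZero (X := ModuleCat.of R X)).mp hpd
    have : Subsingleton X := ModuleCat.subsingleton_of_isZero h0
    exact Module.Free.of_subsingleton R X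
  · have h1 : Projective (ModuleCat.of R X) := projective_iff_hasProjectiveDimensionLT_one.mpr hpd
    have h2 : Module.Projective R X := (IsProjective.iff_projective (R := R) X).mpr h1
    exact Module.free_of_flat_of_isLocalRing
  · obtain ⟨b, f, hf, hmin⟩ := exists_minimal_presentation (R := R) X
    have hex := LinearMap.shortExact_shortComplexKer hf
    have hproj : Projective (ModuleCat.of R (Fin b → R)) := inferInstance
    have hK : HasProjectiveDimensionLT (ModuleCat.of R (LinearMap.ker f)) (n + 1) :=
      (hex.hasProjectiveDimensionLT_X₃_iff n hproj).mp hpd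
    have hKfree : Module.Free R (LinearMap.ker f) :=
      ih (n + 1) (by omega) (LinearMap.ker f) (wreg_ker f hf x k hX (wreg_pi x k hR b)) hK
    -- the kernel is zero
    have hK0 : Subsingleton (LinearMap.ker f) := by
      by_contra hns
      rw [not_subsingleton_iff_nontrivial] at hns
      let B := Module.Free.chooseBasis R (LinearMap.ker f)
      have hne : Nonempty (Module.Free.ChooseBasisIndex R (LinearMap.ker f)) := inferInstance
      obtain ⟨e⟩ := hne
      have h1 : c • (B e : Fin b → R) ∈ Jx x k • (⊤ : Submodule R (Fin b → R)) := by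
        rw [← Finset.univ_sum_single (c • (B e : Fin b → R))]
        refine Submodule.sum_mem _ fun i _ => ?_
        have h2 : (Pi.single i ((c • (B e : Fin b → R)) i) : Fin b → R) =
            ((c • (B e : Fin b → R)) i) • (Pi.single i 1 : Fin b → R) := by
          rw [← Pi.single_smul, smul_eq_mul, mul_one]
        rw [h2]
        refine Submodule.smul_mem_smul ?_ Submodule.mem_top
        rw [Pi.smul_apply, smul_eq_mul, mul_comm]
        exact hcm _ (hmin _ (B e).2 i)
      have h2 := wreg_inter f hf x k hX _ (Submodule.smul_mem _ c (B e).2) h1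
      have hmap : Submodule.map (LinearMap.ker f).subtype
          (Jx x k • (⊤ : Submodule R (LinearMap.ker f))) = Jx x k • LinearMap.ker f := by
        rw [Submodule.map_smul'', Submodule.map_subtype_top]
      rw [← hmap] at h2
      obtain ⟨m, hm, hmm⟩ := h2
      have h3 : m = c • B e := Subtype.ext hmm
      rw [h3] at hm
      have h4 := Submodule.mem_map_of_mem (f := B.coord e) hm
      rw [Submodule.map_smul''] at h4
      have h5 := Submodule.smul_mono (le_refl (Jx x k)) (le_top : Submodule.map (B.coord e) ⊤ ≤ ⊤) h4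
      rw [smul_eq_mul, Ideal.mul_top, map_smul] at h5
      simp only [Module.Basis.coord_apply, Module.Basis.repr_self, Finsupp.single_eq_same, smul_eq_mul,
        mul_one] at h5
      exact hc h5
    have hinj : Function.Injective f := by
      rw [← LinearMap.ker_eq_bot]
      exact Submodule.subsingleton_iff_eq_bot.mp hK0
    exact Module.Free.of_equiv (LinearEquiv.ofBijective f ⟨hinj, hf⟩)

end Pool.Agent.Lib.Helper92
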