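import Pool.Agent.Lib.Helper92.Convert

set_option autoImplicit false
open CategoryTheory CategoryTheory.Abelian

namespace Pool.Agent.Lib.Helper92
universe u
variable {S : Type u} [CommRing S]

lemma eq_bot_of_projective [IsNoetherianRing S] [IsLocalRing S] {I : Ideal S} (hI : I ≠ ⊤)
    (hpd : HasProjectiveDimensionLT (Qt I) 1) : I = ⊥ := by
  have h1 : Projective (Qt I) := projective_iff_hasProjectiveDimensionLT_one.mpr hpd
  have h2 : Module.Projective S (S ⧸ I) := (IsProjective.iff_projective (R := S) (S ⧸ I)).mpr h1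
  have h3 : Module.Free S (S ⧸ I) := Module.free_of_flat_of_isLocalRing
  have : Nontrivial (S ⧸ I) := Ideal.Quotient.nontrivial_iff.mpr hI
  have h4 : FaithfulSMul S (S ⧸ I) := inferInstance
  have h5 := Module.annihilator_eq_bot.mpr h4
  rwa [Ideal.annihilator_quotient] at h5

/-- Main theorem, free case. -/
theorem perfect_free [IsNoetherianRing S] [IsLocalRing S] (I : Ideal S) (hI : I ≠ ⊤)
    (xs : List S) (hxsI : ∀ x ∈ xs, x ∈ I) (hxs : RingTheory.Sequence.IsRegular S xs)
    (hpd : HasProjectiveDimensionLT (ModuleCat.of S (S ⧸ I)) (xs.length + 1))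
    (hfree : Module.Free (S ⧸ I) (I.Cotangent →ₗ[S ⧸ I] (S ⧸ I))) :
    ∃ rs : List S, Ideal.span {r : S | r ∈ rs} = I ∧ RingTheory.Sequence.IsRegular S rs := by
  obtain ⟨n, hn⟩ : ∃ n, n = xs.length := ⟨_, rfl⟩
  rcases n with _ | n
  · rw [← hn] at hpd
    have h0 := eq_bot_of_projective hI hpd
    refine ⟨[], ?_, ?_⟩
    · rw [h0]; simp
    · have : xs = [] := List.length_eq_zero_iff.mp hn.symm
      rwa [this] at hxs
  · obtain ⟨r, h, hb⟩ := exists_nbasis hI
    have hgr : ∀ i < n + 1, Subsingleton (Ext (Qt I) (ModuleCat.of S S) i) := by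
      rw [hn]
      have hlt : I • (⊤ : Submodule S (ModuleCat.of S S)) < ⊤ := by
        have h1 : I • (⊤ : Submodule S S) = I := by
          rw [smul_eq_mul]; exact Ideal.mul_top I
        have h2 : I • (⊤ : Submodule S S) < ⊤ := by
          rw [h1]; exact lt_top_iff_ne_top.mpr hI
        exact h2
      refine ModuleCat.subsingleton_ext_of_exists_isRegular I (Qt I) ?_ (ModuleCat.of S S) hlt xs
        hxsI hxs
      rw [Module.support_eq_zeroLocus]
      change PrimeSpectrum.zeroLocus (Module.annihilator S (S ⧸ I) : Set S) ⊆ _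
      rw [Ideal.annihilator_quotient]
    have hvan : ∀ Y : ModuleCat.{u} S, Subsingleton (Ext (Qt I) Y (n + 2)) := by
      intro Y
      rw [← hn] at hpd
      exact HasProjectiveDimensionLT.subsingleton (Qt I) (n + 1 + 1) (n + 2) le_rfl Y
    obtain ⟨x, hx, hreg, hJ⟩ := hb.exists_regular hI hgr hvan
    refine ⟨(List.range (n + 1)).map x, ?_, ?_⟩
    · have := ofList_range_map x (n + 1)
      rw [hJ] at this
      exact this
    · exact isRegular_list x (n + 1) hreg (by rw [hJ]; exact hI)

end Pool.Agent.Lib.Helper92
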