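import Pool.Agent.Lib.Helper92.FreeCase

/-!
Conversions: lists, the conormal module.
-/

set_option autoImplicit false
open CategoryTheory CategoryTheory.Abelian

namespace Pool.Agent.Lib.Helper92
universe u
variable {S : Type u} [CommRing S]

lemma ofList_range_map (x : ℕ → S) (n : ℕ) : Ideal.ofList ((List.range n).map x) = Jx x n := by
  induction n with
  | zero => simp [Jx]
  | succ n ih =>
    rw [List.range_succ, List.map_append, Ideal.ofList_append, ih]
    simp [Jx]

lemma isRegular_list (x : ℕ → S) (n : ℕ) (hreg : ∀ j < n, IsSMulRegular (S ⧸ Jx x j) (x j))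
    (htop : Jx x n ≠ ⊤) : RingTheory.Sequence.IsRegular S ((List.range n).map x) := by
  constructor
  · constructor
    intro i hi
    have hi' : i < n := by simpa using hi
    have h1 : ((List.range n).map x)[i] = x i := by simp
    have h2 : (Ideal.ofList (((List.range n).map x).take i) • (⊤ : Submodule S S)) = Jx x i := by
      rw [List.map_take.symm, List.take_range, min_eq_left hi'.le, ofList_range_map, smul_eq_mul]
      exact Ideal.mul_top _
    rw [h1]
    exact ((Submodule.quotEquivOfEq _ _ h2).isSMulRegular_congr _).mpr (hreg i hi')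
  · rw [ofList_range_map, smul_eq_mul]
    intro h
    exact htop (h.trans (Ideal.mul_top _)).symm

/-- the `S`-linear map `I → S/I` attached to an element of the normal module. -/
noncomputable def toHom {I : Ideal S} (f : I.Cotangent →ₗ[S ⧸ I] (S ⧸ I)) : I →ₗ[S] (S ⧸ I) :=
  (f.restrictScalars S) ∘ₗ I.toCotangent

lemma toHom_apply {I : Ideal S} (f : I.Cotangent →ₗ[S ⧸ I] (S ⧸ I)) (y : I) :
    toHom f y = f (I.toCotangent y) := rfl

lemma toHom_surj {I : Ideal S} (g : I →ₗ[S] (S ⧸ I)) :
    ∃ f : I.Cotangent →ₗ[S ⧸ I] (S ⧸ I), toHom f = g := by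
  let g' : I.Cotangent →ₗ[S] (S ⧸ I) := Ideal.Cotangent.lift (S := S) (I := I) g (by
    intro a b
    have : a * b = (a : S) • b := rfl
    rw [this, map_smul]
    exact smul_quot_eq_zero a.2 _)
  refine ⟨{ toFun := g', map_add' := g'.map_add, map_smul' := ?_ }, ?_⟩
  · intro c y
    obtain ⟨c, rfl⟩ := Ideal.Quotient.mk_surjective c
    have h1 : (Ideal.Quotient.mk I c) • y = c • y := by
      obtain ⟨y, rfl⟩ := I.toCotangent_surjective y
      rfl
    rw [h1, map_smul]
    rfl
  · ext y
    rfl

lemma exists_nbasis [IsNoetherianRing S] {I : Ideal S} (hI : I ≠ ⊤)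
    [Module.Free (S ⧸ I) (I.Cotangent →ₗ[S ⧸ I] (S ⧸ I))] :
    ∃ (r : ℕ) (h : Fin r → (I →ₗ[S] (S ⧸ I))), NBasis I h := by
  have : Nontrivial (S ⧸ I) := Ideal.Quotient.nontrivial_iff.mpr hI
  have : Module.Finite S I.Cotangent := Module.Finite.of_surjective _ I.toCotangent_surjective
  have : Module.Finite (S ⧸ I) I.Cotangent := Module.Finite.of_restrictScalars_finite S _ _
  have : IsNoetherian (S ⧸ I) (I.Cotangent →ₗ[S ⧸ I] (S ⧸ I)) := isNoetherian_linearMap _ _ _
  have : Module.Finite (S ⧸ I) (I.Cotangent →ₗ[S ⧸ I] (S ⧸ I)) := inferInstance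
  let b := Module.finBasis (S ⧸ I) (I.Cotangent →ₗ[S ⧸ I] (S ⧸ I))
  have key : ∀ (a : Fin (Module.finrank (S ⧸ I) (I.Cotangent →ₗ[S ⧸ I] (S ⧸ I))) → S) (y : I),
      (∑ i, a i • toHom (b i)) y = (∑ i, (Ideal.Quotient.mk I (a i)) • b i) (I.toCotangent y) := by
    intro a y
    rw [LinearMap.sum_apply, LinearMap.sum_apply]
    rfl
  refine ⟨_, fun i => toHom (b i), ?_, ?_⟩
  · intro a ha i
    have h1 : ∑ i, (Ideal.Quotient.mk I (a i)) • b i = 0 := by
      apply LinearMap.ext
      intro y
      obtain ⟨y, rfl⟩ := I.toCotangent_surjective y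
      rw [← key, ha]
      rfl
    have := Fintype.linearIndependent_iff.mp b.linearIndependent _ h1 i
    exact Ideal.Quotient.eq_zero_iff_mem.mp this
  · intro g
    obtain ⟨f, rfl⟩ := toHom_surj g
    have h1 := fun i => Ideal.Quotient.mk_surjective (b.repr f i)
    choose a ha using h1
    refine ⟨a, ?_⟩
    ext y
    rw [key, toHom_apply]
    congr 1
    simp only [ha]
    exact (b.sum_repr f).symm

end Pool.Agent.Lib.Helper92
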