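import Pool.Agent.Lib.Helper92.FiniteToFree

/-!
If `depth R ≤ 2` and `Hom_R(M, R)` has finite projective dimension then it is free.
-/

set_option autoImplicit false
open CategoryTheory CategoryTheory.Abelian

namespace Pool.Agent.Lib.Helper92
universe u
variable {R : Type u} [CommRing R]

/-- either `R/J` has a regular element in the maximal ideal or a nonzero socle. -/
lemma regular_or_socle [IsNoetherianRing R] [IsLocalRing R] (J : Ideal R) :
    (∃ y ∈ IsLocalRing.maximalIdeal R, IsSMulRegular (R ⧸ J) y) ∨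
      (∃ c, c ∉ J ∧ ∀ a ∈ IsLocalRing.maximalIdeal R, a * c ∈ J) := by
  by_contra hcon
  push Not at hcon
  obtain ⟨h1, h2⟩ := hcon
  have hsub : (IsLocalRing.maximalIdeal R : Set R) ⊆ ⋃ p ∈ associatedPrimes R (R ⧸ J), (p : Set R) := by
    rw [biUnion_associatedPrimes_eq_compl_regular]
    intro y hy
    exact h1 y hy
  rw [Ideal.subset_union_prime_finite (associatedPrimes.finite R (R ⧸ J))
    (⊥ : Ideal R) ⊥ (fun p hp _ _ => IsAssociatedPrime.isPrime hp)] at hsub
  obtain ⟨p, hp, hle⟩ := hsub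
  have hpm : p = IsLocalRing.maximalIdeal R :=
    le_antisymm (IsLocalRing.le_maximalIdeal hp.isPrime.ne_top) hle
  have hass := isAssociatedPrime_iff.mp (AssociatedPrimes.mem_iff.mp hp)
  obtain ⟨-, z, hz⟩ := hass
  obtain ⟨c, rfl⟩ := Submodule.Quotient.mk_surjective _ z
  have hmem : ∀ a : R, a ∈ p ↔ a * c ∈ J := by
    intro a
    rw [hz, Submodule.mem_colon_singleton, Submodule.mem_bot, ← Submodule.Quotient.mk_smul,
      Submodule.Quotient.mk_eq_zero, smul_eq_mul]
  obtain ⟨a, ha, hac⟩ := h2 c (fun hc => by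
    have : (1 : R) ∈ p := (hmem 1).mpr (by simpa using hc)
    exact hp.isPrime.ne_top ((Ideal.eq_top_iff_one _).mpr this))
  exact hac ((hmem a).mp (hle ha))

lemma wreg_of_isSMulRegular (x : ℕ → R) (k : ℕ) (h : ∀ j < k, IsSMulRegular (R ⧸ Jx x j) (x j)) :
    WReg R x k := by
  intro j hj m hm
  have h1 : Jx x j • (⊤ : Submodule R R) = Jx x j := by
    rw [smul_eq_mul]; exact Ideal.mul_top _
  rw [h1] at hm ⊢
  have : x j • (Submodule.Quotient.mk m : R ⧸ Jx x j) = x j • 0 := by
    rw [smul_zero, ← Submodule.Quotient.mk_smul, Submodule.Quotient.mk_eq_zero]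
    exact hm
  exact (Submodule.Quotient.mk_eq_zero _).mp (h j hj this)

lemma exists_max_regular [IsNoetherianRing R] [IsLocalRing R] (d : ℕ)
    (hd : ∀ rs : List R, RingTheory.Sequence.IsRegular R rs → rs.length ≤ d) :
    ∃ k ≤ d, ∃ x : ℕ → R, (∀ j < k, IsSMulRegular (R ⧸ Jx x j) (x j)) ∧
      ∃ c, c ∉ Jx x k ∧ ∀ a ∈ IsLocalRing.maximalIdeal R, a * c ∈ Jx x k := by
  by_contra hcon
  push Not at hcon
  have key : ∀ k ≤ d + 1, ∃ x : ℕ → R, ∀ j < k, x j ∈ IsLocalRing.maximalIdeal R ∧
      IsSMulRegular (R ⧸ Jx x j) (x j) := by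
    intro k
    induction k with
    | zero => exact fun _ => ⟨0, by simp⟩
    | succ k ih =>
      intro hk
      obtain ⟨x, hx⟩ := ih (by omega)
      have hno := hcon k (by omega) x (fun j hj => (hx j hj).2)
      rcases regular_or_socle (Jx x k) with ⟨y, hy, hyreg⟩ | ⟨c, hc, hcm⟩
      · let x' : ℕ → R := Function.update x k y
        have hx'k : x' k = y := Function.update_self _ _ _
        have hx'j : ∀ j < k, x' j = x j := fun j hj => Function.update_of_ne (by omega) _ _
        have hJ : ∀ j ≤ k, Jx x' j = Jx x j :=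
          fun j hj => Jx_congr _ _ _ fun i hi => hx'j i (by omega)
        refine ⟨x', ?_⟩
        intro j hj
        rcases Nat.lt_succ_iff_lt_or_eq.mp hj with h1 | h1
        · rw [hx'j j h1, hJ j (by omega)]; exact hx j h1
        · rw [h1, hx'k, hJ k le_rfl]; exact ⟨hy, hyreg⟩
      · obtain ⟨a, ha, hac⟩ := hno c hc
        exact absurd (hcm a ha) hac
  obtain ⟨x, hx⟩ := key (d + 1) le_rfl
  have htop : Jx x (d + 1) ≠ ⊤ := by
    intro h
    have := Jx_le (I := IsLocalRing.maximalIdeal R) (fun j hj => (hx j hj).1)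
    rw [h] at this
    exact (IsLocalRing.maximalIdeal.isMaximal R).ne_top (top_le_iff.mp this)
  have := hd _ (isRegular_list x (d + 1) (fun j hj => (hx j hj).2) htop)
  simp at this

lemma exists_smul_eq' {M : Type u} [AddCommGroup M] [Module R M] (g : M →ₗ[R] R) (t : R)
    (ht : ∀ a : R, t * a = 0 → a = 0) (hg : ∀ y, ∃ z : R, g y = t * z) :
    ∃ g' : M →ₗ[R] R, g = t • g' := by
  have hinj : Function.Injective (LinearMap.lsmul R R t) := by
    rw [← LinearMap.ker_eq_bot, LinearMap.ker_eq_bot']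
    intro m hm
    exact ht m hm
  let f := LinearMap.lsmul R R t
  refine ⟨(LinearEquiv.ofInjective f hinj).symm.toLinearMap ∘ₗ
    LinearMap.codRestrict (LinearMap.range f) g (fun y => ?_), ?_⟩
  · obtain ⟨z, hz⟩ := hg y
    exact ⟨z, hz.symm⟩
  · ext y
    have := LinearEquiv.ofInjective_apply f (h := hinj)
      (x := (LinearEquiv.ofInjective f hinj).symm
        (LinearMap.codRestrict (LinearMap.range f) g (fun y => by
          obtain ⟨z, hz⟩ := hg y
          exact ⟨z, hz.symm⟩) y))
    rw [LinearEquiv.apply_symm_apply] at this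
    exact this

lemma wreg_dual (M : Type u) [AddCommGroup M] [Module R M] (x : ℕ → R) (k : ℕ) (hk : k ≤ 2)
    (h : WReg R x k) : WReg (M →ₗ[R] R) x k := by
  intro j hj f hf
  have h1 : ∀ J : Ideal R, J • (⊤ : Submodule R R) = J := by
    intro J
    rw [smul_eq_mul]; exact Ideal.mul_top _
  have hx0 : ∀ a : R, x 0 * a = 0 → a = 0 := by
    intro a ha
    have := h 0 (by omega) a
    rw [h1] at this
    have h2 : x 0 • a ∈ Jx x 0 := by
      rw [smul_eq_mul, ha]; exact Ideal.zero_mem _
    exact (Submodule.mem_bot R).mp (this h2)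
  obtain rfl | rfl : j = 0 ∨ j = 1 := by omega
  · have h2 : x 0 • f = 0 := by simpa [Jx] using hf
    have h3 : f = 0 := by
      ext y
      have := LinearMap.congr_fun h2 y
      exact hx0 _ this
    rw [h3]; exact Submodule.zero_mem _
  · obtain ⟨a, ha, g, -, hfg⟩ := (mem_step_smul _ x 0 _).mp hf
    have ha0 : a = 0 := by simpa [Jx] using ha
    rw [ha0, zero_add] at hfg
    have hmem : ∀ b : R, x 0 * b ∈ Jx x 1 := fun b =>
      Ideal.mem_sup_right (Ideal.mul_mem_right _ _ (Ideal.mem_span_singleton_self _))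
    have hdiv : ∀ y, ∃ z : R, f y = x 0 * z := by
      intro y
      have h2 := LinearMap.congr_fun hfg y
      have h3 : x 1 • f y ∈ Jx x 1 • (⊤ : Submodule R R) := by
        rw [h1]
        have : x 1 • f y = x 0 * g y := h2
        rw [this]; exact hmem _
      have h4 := h 1 (by omega) _ h3
      rw [h1] at h4
      obtain ⟨z, hz⟩ := mem_sup_span h4
      exact ⟨z, by
        have := (Submodule.mem_bot R).mp hz
        rw [mul_comm]; exact sub_eq_zero.mp this⟩
    obtain ⟨f', hf'⟩ := exists_smul_eq' f (x 0) hx0 hdiv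
    rw [hf']
    exact Submodule.smul_mem_smul (Ideal.mem_sup_right (Ideal.mem_span_singleton_self _))
      Submodule.mem_top

/-- if `depth R ≤ 2`, a dual of finite projective dimension is free. -/
theorem dual_free [IsNoetherianRing R] [IsLocalRing R] 
    (hd : ∀ rs : List R, RingTheory.Sequence.IsRegular R rs → rs.length ≤ 2)
    (M : Type u) [AddCommGroup M] [Module R M] [Module.Finite R M] (n : ℕ)
    (hpd : HasProjectiveDimensionLT (ModuleCat.of R (M →ₗ[R] R)) n) :
    Module.Free R (M →ₗ[R] R) := by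
  obtain ⟨k, hk, x, hx, c, hc, hcm⟩ := exists_max_regular 2 hd
  have : IsNoetherian R (M →ₗ[R] R) := isNoetherian_linearMap _ _ _
  have hw := wreg_of_isSMulRegular x k hx
  exact free_of_pd x k hw c hc hcm n (M →ₗ[R] R) (wreg_dual M x k hk hw) hpd

/-- **Main theorem**: perfect ideals. -/
theorem perfect_main {S : Type u} [CommRing S] [IsNoetherianRing S] [IsLocalRing S] (I : Ideal S)
    (hI : I ≠ ⊤)
    (xs : List S) (hxsI : ∀ x ∈ xs, x ∈ I) (hxs : RingTheory.Sequence.IsRegular S xs)
    (hpd : HasProjectiveDimensionLT (ModuleCat.of S (S ⧸ I)) (xs.length + 1))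
    (hN : ∃ n, HasProjectiveDimensionLT
      (ModuleCat.of (S ⧸ I) (I.Cotangent →ₗ[S ⧸ I] (S ⧸ I))) n)
    (hor : (∀ rs : List (S ⧸ I), RingTheory.Sequence.IsRegular (S ⧸ I) rs → rs.length ≤ 2) ∨
      Module.Free (S ⧸ I) (I.Cotangent →ₗ[S ⧸ I] (S ⧸ I))) :
    ∃ rs : List S, Ideal.span {r : S | r ∈ rs} = I ∧ RingTheory.Sequence.IsRegular S rs := by
  have : Nontrivial (S ⧸ I) := Ideal.Quotient.nontrivial_iff.mpr hI
  have : IsLocalRing (S ⧸ I) := IsLocalRing.of_surjective' _ Ideal.Quotient.mk_surjective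
  refine perfect_free I hI xs hxsI hxs hpd ?_
  rcases hor with hd | hfree
  · obtain ⟨n, hn⟩ := hN
    have : Module.Finite S I.Cotangent := Module.Finite.of_surjective _ I.toCotangent_surjective
    have : Module.Finite (S ⧸ I) I.Cotangent := Module.Finite.of_restrictScalars_finite S _ _
    exact dual_free hd I.Cotangent n hn
  · exact hfree

end Pool.Agent.Lib.Helper92
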