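import Mathlib

/-!
Ext classes attached to regular sequences (for `MP_fa772a_ag`, Vasconcelos' conjecture on the
normal module).
-/

set_option autoImplicit false
open CategoryTheory CategoryTheory.Abelian

namespace Pool.Agent.Lib.Helper92
universe u
variable {S : Type u} [CommRing S]

/-- the map `S → Y`, `1 ↦ y`. -/
noncomputable abbrev pt {Y : ModuleCat.{u} S} (y : Y) : ModuleCat.of S S ⟶ Y :=
  ModuleCat.ofHom (LinearMap.toSpanSingleton S Y y)

/-- the quotient `S ⧸ J` as an object -/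
noncomputable abbrev Qt (J : Ideal S) : ModuleCat.{u} S := ModuleCat.of S (S ⧸ J)

/-- the ideal as an object. -/
noncomputable abbrev IdO (J : Ideal S) : ModuleCat.{u} S := ModuleCat.of S J

/-- the quotient map -/
noncomputable abbrev qmap {J I : Ideal S} (h : J ≤ I) : Qt J ⟶ Qt I :=
  ModuleCat.ofHom (Submodule.factor h)

/-- `0 → I → S → S/I → 0`. -/
noncomputable abbrev sesI (I : Ideal S) : ShortComplex (ModuleCat.{u} S) :=
  ModuleCat.shortComplexOfCompEqZero (Submodule.subtype I) (Submodule.mkQ I)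
    (by ext x; exact (Submodule.Quotient.mk_eq_zero I).mpr x.2)

lemma sesI_exact (I : Ideal S) : (sesI I).ShortExact :=
  ModuleCat.shortComplex_shortExact _
    (by
      intro y
      constructor
      · intro h
        have h' : (Submodule.mkQ I) y = 0 := h
        rw [Submodule.mkQ_apply, Submodule.Quotient.mk_eq_zero] at h'
        exact ⟨⟨y, h'⟩, rfl⟩
      · rintro ⟨x, rfl⟩
        change (Submodule.mkQ I) (x : S) = 0
        rw [Submodule.mkQ_apply, Submodule.Quotient.mk_eq_zero]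
        exact x.2)
    (by exact Subtype.val_injective) (Submodule.mkQ_surjective _)

lemma factor_qmk {J I : Ideal S} (h : J ≤ I) (y : S) :
    Submodule.factor h (Submodule.Quotient.mk y) = Submodule.Quotient.mk y := rfl

lemma mem_sup_span {J : Ideal S} {x y : S} (hy : y ∈ J ⊔ Ideal.span {x}) :
    ∃ a : S, y - a * x ∈ J := by
  obtain ⟨j, hj, z, hz, rfl⟩ := Submodule.mem_sup.mp hy
  obtain ⟨a, rfl⟩ := Ideal.mem_span_singleton'.mp hz
  exact ⟨a, by simpa using hj⟩

/-- `0 → S/J →x S/J → S/(J+x) → 0`. -/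
noncomputable abbrev sesT (J : Ideal S) (x : S) : ShortComplex (ModuleCat.{u} S) :=
  ModuleCat.shortComplexOfCompEqZero (M := S ⧸ J) (N := S ⧸ J) (L := S ⧸ (J ⊔ Ideal.span {x}))
    (LinearMap.lsmul S (S ⧸ J) x) (Submodule.factor le_sup_left)
    (by
      ext
      change Submodule.factor (le_sup_left : J ≤ J ⊔ Ideal.span {x})
        (x • (Submodule.Quotient.mk (1 : S))) = 0
      rw [← Submodule.Quotient.mk_smul, factor_qmk, Submodule.Quotient.mk_eq_zero]
      exact Ideal.mem_sup_right (by simp [Ideal.mem_span_singleton]))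

lemma sesT_exact (J : Ideal S) (x : S) (hx : IsSMulRegular (S ⧸ J) x) :
    (sesT J x).ShortExact :=
  ModuleCat.shortComplex_shortExact _
    (by
      intro y
      obtain ⟨y, rfl⟩ := Submodule.mkQ_surjective _ y
      constructor
      · intro h
        have h' : (Submodule.factor (le_sup_left : J ≤ J ⊔ Ideal.span {x})) (Submodule.mkQ _ y) = 0 := h
        rw [Submodule.mkQ_apply, factor_qmk, Submodule.Quotient.mk_eq_zero] at h'
        obtain ⟨a, ha⟩ := mem_sup_span h'
        refine ⟨Submodule.Quotient.mk a, ?_⟩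
        change x • (Submodule.Quotient.mk a : S ⧸ J) = Submodule.Quotient.mk y
        rw [← Submodule.Quotient.mk_smul, eq_comm, Submodule.Quotient.eq]
        simpa [mul_comm] using ha
      · rintro ⟨z, hz⟩
        rw [← hz]
        obtain ⟨z, rfl⟩ := Submodule.mkQ_surjective _ z
        change (Submodule.factor (le_sup_left : J ≤ J ⊔ Ideal.span {x})) (x • Submodule.mkQ _ z) = 0
        rw [Submodule.mkQ_apply, ← Submodule.Quotient.mk_smul, factor_qmk,
          Submodule.Quotient.mk_eq_zero]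
        exact Ideal.mem_sup_right (by simp [Ideal.mem_span_singleton]))
    (by exact hx) (by
      intro y
      obtain ⟨y, rfl⟩ := Submodule.mkQ_surjective _ y
      exact ⟨Submodule.Quotient.mk y, rfl⟩)

/-- the map `κ : J + (x) → S/J`, `y + a x ↦ a`. -/
noncomputable def kap (J : Ideal S) (x : S) (hx : IsSMulRegular (S ⧸ J) x) :
    (J ⊔ Ideal.span {x} : Ideal S) →ₗ[S] (S ⧸ J) :=
  (LinearEquiv.ofInjective (LinearMap.lsmul S (S ⧸ J) x) hx).symm.toLinearMap ∘ₗ
    LinearMap.codRestrict (LinearMap.range (LinearMap.lsmul S (S ⧸ J) x))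
      (Submodule.mkQ J ∘ₗ Submodule.subtype _) (by
        rintro ⟨y, hy⟩
        obtain ⟨a, ha⟩ := mem_sup_span hy
        refine ⟨Submodule.Quotient.mk a, ?_⟩
        change x • (Submodule.Quotient.mk a : S ⧸ J) = Submodule.Quotient.mk y
        rw [← Submodule.Quotient.mk_smul, eq_comm, Submodule.Quotient.eq]
        simpa [mul_comm] using ha)

lemma smul_kap (J : Ideal S) (x : S) (hx : IsSMulRegular (S ⧸ J) x)
    (y : (J ⊔ Ideal.span {x} : Ideal S)) :
    x • kap J x hx y = Submodule.Quotient.mk (y : S) := by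
  have := LinearEquiv.ofInjective_apply (LinearMap.lsmul S (S ⧸ J) x) (h := hx) (x := kap J x hx y)
  rw [LinearMap.lsmul_apply] at this
  rw [← this, kap]
  simp

lemma kap_apply (J : Ideal S) (x : S) (hx : IsSMulRegular (S ⧸ J) x)
    (y : (J ⊔ Ideal.span {x} : Ideal S)) (a : S) (h : (y : S) - a * x ∈ J) :
    kap J x hx y = Submodule.Quotient.mk a := by
  apply hx
  change x • _ = x • _
  rw [smul_kap, ← Submodule.Quotient.mk_smul, Submodule.Quotient.eq]
  simpa [mul_comm] using h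

/-- naturality: the class of `0 → J' → S → S/J' → 0` pushed along `κ` is the class of `sesT`. -/
lemma extClass_kap (J : Ideal S) (x : S) (hx : IsSMulRegular (S ⧸ J) x) :
    (sesI_exact (J ⊔ Ideal.span {x})).extClass.comp (Ext.mk₀ (ModuleCat.ofHom (kap J x hx)))
      (add_zero 1) = (sesT_exact J x hx).extClass := by
  let f : sesI (J ⊔ Ideal.span {x}) ⟶ sesT J x :=
    { τ₁ := ModuleCat.ofHom (kap J x hx)
      τ₂ := ModuleCat.ofHom (Submodule.mkQ J)
      τ₃ := 𝟙 _
      comm₁₂ := by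
        ext y
        change x • kap J x hx y = Submodule.Quotient.mk (y : S)
        exact smul_kap J x hx y
      comm₂₃ := by
        ext
        simp }
  have := ShortComplex.ShortExact.extClass_naturality (sesI_exact (J ⊔ Ideal.span {x}))
    (sesT_exact J x hx) f
  rw [this]
  change (Ext.mk₀ (𝟙 _)).comp _ _ = _
  rw [Ext.mk₀_id_comp]

/-- naturality for `J' ≤ I`. -/
lemma extClass_incl {J I : Ideal S} (h : J ≤ I) :
    (sesI_exact J).extClass.comp (Ext.mk₀ (ModuleCat.ofHom (Submodule.inclusion h))) (add_zero 1)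
      = (Ext.mk₀ (qmap h)).comp (sesI_exact I).extClass (zero_add 1) := by
  let f : sesI J ⟶ sesI I :=
    { τ₁ := ModuleCat.ofHom (Submodule.inclusion h)
      τ₂ := 𝟙 _
      τ₃ := qmap h
      comm₁₂ := by
        ext y
        rfl
      comm₂₃ := by
        ext
        rfl }
  exact ShortComplex.ShortExact.extClass_naturality (sesI_exact J) (sesI_exact I) f

lemma pt_add {Y : ModuleCat.{u} S} (y z : Y) : pt (y + z) = pt y + pt z := by
  ext
  change (1 : S) • (y + z) = (1 : S) • y + (1 : S) • z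
  rw [smul_add]

lemma pt_sub {Y : ModuleCat.{u} S} (y z : Y) : pt (y - z) = pt y - pt z := by
  ext
  change (1 : S) • (y - z) = (1 : S) • y - (1 : S) • z
  rw [smul_sub]

lemma pt_smul {Y : ModuleCat.{u} S} (a : S) (y : Y) : pt (a • y) = a • pt y := by
  ext
  change (1 : S) • (a • y) = a • ((1 : S) • y)
  rw [one_smul, one_smul]

lemma pt_comp {Y Z : ModuleCat.{u} S} (y : Y) (f : Y ⟶ Z) : pt y ≫ f = pt (f.hom y) := by
  ext
  change f.hom ((1 : S) • y) = (1 : S) • (f.hom y)
  rw [map_smul]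

/-- `u` generates `Ext^j(S/J, -)`: every class is `u` composed with a map `S → Y`. -/
structure GenExt (J : Ideal S) (j : ℕ) (u : Ext (Qt J) (ModuleCat.of S S) j) : Prop where
  surj : ∀ (Y : ModuleCat.{u} S) (v : Ext (Qt J) Y j),
    ∃ y : Y, u.comp (Ext.mk₀ (pt y)) (add_zero j) = v
  inj : ∀ (Y : ModuleCat.{u} S) (y : Y), u.comp (Ext.mk₀ (pt y)) (add_zero j) = 0 →
    y ∈ J • (⊤ : Submodule S Y)
  van : ∀ i, j < i → ∀ Y : ModuleCat.{u} S, Subsingleton (Ext (Qt J) Y i)

lemma GenExt.inj' {J : Ideal S} {j : ℕ} {u : Ext (Qt J) (ModuleCat.of S S) j} (hu : GenExt J j u)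
    (Y : ModuleCat.{u} S) (y z : Y)
    (h : u.comp (Ext.mk₀ (pt y)) (add_zero j) = u.comp (Ext.mk₀ (pt z)) (add_zero j)) :
    y - z ∈ J • (⊤ : Submodule S Y) := by
  apply hu.inj
  rw [pt_sub, sub_eq_add_neg, Ext.mk₀_add, Ext.mk₀_neg, Ext.comp_add, Ext.comp_neg, h,
    add_neg_cancel]

/-- the induction step -/
lemma GenExt.step {J : Ideal S} {j : ℕ} {u : Ext (Qt J) (ModuleCat.of S S) j} (hu : GenExt J j u)
    (x : S) (hx : IsSMulRegular (S ⧸ J) x) :
    GenExt (J ⊔ Ideal.span {x}) (1 + j) ((sesT_exact J x hx).extClass.comp u rfl) where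
  surj Y v := by
    have h0 : (Ext.mk₀ (sesT J x).g).comp v (zero_add (1 + j)) = 0 :=
      @Subsingleton.elim _ (hu.van (1 + j) (by omega) Y) _ _
    obtain ⟨v', hv'⟩ := Ext.contravariant_sequence_exact₃ (sesT_exact J x hx) Y v h0 rfl
    obtain ⟨y, hy⟩ := hu.surj Y v'
    refine ⟨y, ?_⟩
    rw [← hv', ← hy, Ext.comp_assoc_of_third_deg_zero]
  inj Y y h := by
    rw [Ext.comp_assoc_of_third_deg_zero] at h
    obtain ⟨v', hv'⟩ := Ext.contravariant_sequence_exact₁ (sesT_exact J x hx) Y _ rfl h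
    obtain ⟨z, hz⟩ := hu.surj Y v'
    have hf : (sesT J x).f = x • 𝟙 (Qt J) := by
      ext
      rfl
    rw [hf, Ext.mk₀_smul, Ext.smul_comp, Ext.mk₀_id_comp, ← hz, ← Ext.comp_smul,
      ← Ext.mk₀_smul, ← pt_smul] at hv'
    have := hu.inj' Y _ _ hv'
    have h2 : y = x • z - (x • z - y) := by abel
    rw [h2]
    apply Submodule.sub_mem
    · exact Submodule.smul_mem_smul (Ideal.mem_sup_right (Ideal.mem_span_singleton_self x))
        Submodule.mem_top
    · exact Submodule.smul_mono_left le_sup_left this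
  van i hi Y := by
    refine ⟨fun a b => ?_⟩
    rw [← sub_eq_zero]
    have h0 : (Ext.mk₀ (sesT J x).g).comp (a - b) (zero_add i) = 0 :=
      @Subsingleton.elim _ (hu.van i (by omega) Y) _ _
    obtain ⟨i', rfl⟩ : ∃ i', i = 1 + i' := ⟨i - 1, by omega⟩
    obtain ⟨v', hv'⟩ := Ext.contravariant_sequence_exact₃ (sesT_exact J x hx) Y _ h0 rfl
    rw [← hv', @Subsingleton.elim _ (hu.van i' (by omega) Y) v' 0, Ext.comp_zero]

/-- the base case -/
lemma GenExt.base (u : Ext (Qt (⊥ : Ideal S)) (ModuleCat.of S S) 0)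
    (hu : u = Ext.mk₀ (ModuleCat.ofHom (Submodule.quotEquivOfEqBot (⊥ : Ideal S) rfl).toLinearMap)) :
    GenExt (⊥ : Ideal S) 0 u where
  surj Y v := by
    obtain ⟨f, rfl⟩ := (Ext.mk₀_bijective _ _).2 v
    refine ⟨f.hom (Submodule.Quotient.mk 1), ?_⟩
    rw [hu, Ext.mk₀_comp_mk₀]
    congr 1
    ext
    change (1 : S) • _ = f.hom (Submodule.Quotient.mk 1)
    rw [one_smul]
  inj Y y h := by
    rw [hu, Ext.mk₀_comp_mk₀, Ext.mk₀_eq_zero_iff] at h
    have := congrArg (fun f => f.hom (Submodule.Quotient.mk 1)) h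
    have h2 : (1 : S) • y = 0 := this
    rw [one_smul] at h2
    rw [h2]
    exact Submodule.zero_mem _
  van i hi Y := by
    have : HasProjectiveDimensionLT (Qt (⊥ : Ideal S)) 1 := by
      have : Projective (Qt (⊥ : Ideal S)) := by
        have : Projective (ModuleCat.of S S) := inferInstance
        exact Projective.of_iso (Submodule.quotEquivOfEqBot (⊥ : Ideal S) rfl).symm.toModuleIso this
      infer_instance
    exact HasProjectiveDimensionLT.subsingleton _ 1 i hi Y

/-- the canonical class in degree `0` -/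
noncomputable abbrev u0 : Ext (Qt (⊥ : Ideal S)) (ModuleCat.of S S) 0 :=
  Ext.mk₀ (ModuleCat.ofHom (Submodule.quotEquivOfEqBot (⊥ : Ideal S) rfl).toLinearMap)

lemma compat_step {J I : Ideal S} (hJI : J ≤ I) {j : ℕ} {u : Ext (Qt J) (ModuleCat.of S S) j}
    {Y : ModuleCat.{u} S} (ν : Ext (Qt I) Y j) (y : Y)
    (hν : (Ext.mk₀ (qmap hJI)).comp ν (zero_add j) = u.comp (Ext.mk₀ (pt y)) (add_zero j))
    (x : S) (hx : IsSMulRegular (S ⧸ J) x) (hJI' : J ⊔ Ideal.span {x} ≤ I)
    (g : I →ₗ[S] (S ⧸ I)) (t : S) (hg0 : ∀ z (hz : z ∈ J), g ⟨z, hJI hz⟩ = 0)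
    (hgt : g ⟨x, hJI' (Ideal.mem_sup_right (Ideal.mem_span_singleton_self x))⟩ =
      Submodule.Quotient.mk t) :
    (Ext.mk₀ (qmap hJI')).comp
      ((sesI_exact I).extClass.comp ((Ext.mk₀ (ModuleCat.ofHom g)).comp ν (zero_add j)) rfl)
        (zero_add (1 + j)) =
    ((sesT_exact J x hx).extClass.comp u rfl).comp (Ext.mk₀ (pt (t • y))) (add_zero (1 + j)) := by
  have key : ModuleCat.ofHom (Submodule.inclusion hJI') ≫ ModuleCat.ofHom g
      = t • (ModuleCat.ofHom (kap J x hx) ≫ qmap hJI) := by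
    ext z
    obtain ⟨a, ha⟩ := mem_sup_span z.2
    change g ⟨z.1, hJI' z.2⟩ = t • (Submodule.factor hJI (kap J x hx z))
    rw [kap_apply J x hx z a ha, factor_qmk, ← Submodule.Quotient.mk_smul]
    have h1 : (⟨z.1, hJI' z.2⟩ : I) = ⟨z.1 - a * x, hJI ha⟩ +
        a • ⟨x, hJI' (Ideal.mem_sup_right (Ideal.mem_span_singleton_self x))⟩ := by
      ext
      simp
    rw [h1, map_add, map_smul, hg0 _ ha, hgt, zero_add, ← Submodule.Quotient.mk_smul]
    congr 1
    simp [mul_comm]
  rw [← Ext.comp_assoc (a₁₂ := 1) _ _ _ (by omega) (by omega) (by omega), ← extClass_incl hJI',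
    Ext.comp_assoc_of_second_deg_zero, Ext.mk₀_comp_mk₀_assoc, key, Ext.mk₀_smul,
    Ext.smul_comp, Ext.comp_smul, ← Ext.mk₀_comp_mk₀_assoc, hν,
    ← Ext.comp_assoc_of_second_deg_zero, extClass_kap, pt_smul, Ext.mk₀_smul, Ext.comp_smul,
    Ext.comp_assoc_of_third_deg_zero]

lemma compat_base {I : Ideal S} (x : S) (hx : IsSMulRegular (S ⧸ (⊥ : Ideal S)) x)
    (hJI' : (⊥ : Ideal S) ⊔ Ideal.span {x} ≤ I) (hxI : x ∈ I) :
    (Ext.mk₀ (qmap hJI')).comp (sesI_exact I).extClass (zero_add 1) =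
    ((sesT_exact ⊥ x hx).extClass.comp u0 rfl).comp
      (Ext.mk₀ (pt (Y := IdO I) ⟨x, hxI⟩)) (add_zero 1) := by
  have key : ModuleCat.ofHom (Submodule.inclusion hJI')
      = ModuleCat.ofHom (kap ⊥ x hx) ≫
        ModuleCat.ofHom (Submodule.quotEquivOfEqBot (⊥ : Ideal S) rfl).toLinearMap ≫
          pt (Y := IdO I) ⟨x, hxI⟩ := by
    ext z
    obtain ⟨a, ha⟩ := mem_sup_span z.2
    change (z : S) = ((Submodule.quotEquivOfEqBot (⊥ : Ideal S) rfl) (kap ⊥ x hx z)) * x
    rw [kap_apply ⊥ x hx z a ha]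
    have : (Submodule.quotEquivOfEqBot (⊥ : Ideal S) rfl) (Submodule.Quotient.mk a) = a := rfl
    rw [this]
    have h2 := (Submodule.mem_bot S).mp ha
    exact sub_eq_zero.mp h2
  rw [← extClass_incl hJI', key, ← Ext.mk₀_comp_mk₀, ← Ext.mk₀_comp_mk₀,
    ← extClass_kap, Ext.comp_assoc_of_third_deg_zero, Ext.comp_assoc_of_second_deg_zero]

end Pool.Agent.Lib.Helper92
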