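import Pool.Agent.Lib.Helper92.ExtGen

/-!
Lifting of top degree classes for perfect ideals.
-/

set_option autoImplicit false
open CategoryTheory CategoryTheory.Abelian

namespace Pool.Agent.Lib.Helper92
universe u
variable {S : Type u} [CommRing S]

lemma smul_ext_eq_zero {I : Ideal S} {Y : ModuleCat.{u} S} {n : ℕ} (v : Ext (Qt I) Y n) {a : S}
    (ha : a ∈ I) : a • v = 0 := by
  have h : a • 𝟙 (Qt I) = 0 := by
    ext
    change a • (Submodule.Quotient.mk 1 : S ⧸ I) = 0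
    rw [← Submodule.Quotient.mk_smul, Submodule.Quotient.mk_eq_zero]
    simpa using ha
  rw [← Ext.mk₀_id_comp v, ← Ext.smul_comp, ← Ext.mk₀_smul, h, Ext.mk₀_zero, Ext.zero_comp]

lemma lift_one {J I : Ideal S} (hJI : J ≤ I) {n : ℕ} {u : Ext (Qt J) (ModuleCat.of S S) n}
    (hu : GenExt J n u) (v : Ext (Qt I) (ModuleCat.of S S) n) :
    ∃ w ∈ J.colon (I : Set S),
      u.comp (Ext.mk₀ (pt (Y := ModuleCat.of S S) w)) (add_zero n) =
        (Ext.mk₀ (qmap hJI)).comp v (zero_add n) := by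
  obtain ⟨w, hw⟩ := hu.surj _ ((Ext.mk₀ (qmap hJI)).comp v (zero_add n))
  refine ⟨w, ?_, hw⟩
  rw [Submodule.mem_colon]
  intro a ha
  have h0 : u.comp (Ext.mk₀ (pt (Y := ModuleCat.of S S) (a • w))) (add_zero n) = 0 := by
    rw [pt_smul, Ext.mk₀_smul, Ext.comp_smul, hw, ← Ext.comp_smul, smul_ext_eq_zero v ha,
      Ext.comp_zero]
  have := hu.inj _ _ h0
  have h2 : a • w ∈ J := by
    have h3 : J • (⊤ : Submodule S S) = J := by
      rw [smul_eq_mul]; exact Ideal.mul_top J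
    rw [← h3]
    exact this
  simpa [mul_comm] using h2

lemma lift_free {J I : Ideal S} (hJI : J ≤ I) {n : ℕ} {u : Ext (Qt J) (ModuleCat.of S S) n}
    (hu : GenExt J n u) {b : ℕ} (v : Ext (Qt I) (ModuleCat.of S (Fin b → S)) n) :
    ∃ w : Fin b → S, (∀ k, w k ∈ J.colon (I : Set S)) ∧
      u.comp (Ext.mk₀ (pt (Y := ModuleCat.of S (Fin b → S)) w)) (add_zero n) =
        (Ext.mk₀ (qmap hJI)).comp v (zero_add n) := by
  have h1 := fun k : Fin b => lift_one hJI hu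
    (v.comp (Ext.mk₀ (ModuleCat.ofHom (LinearMap.proj k))) (add_zero n))
  choose w hw hw' using h1
  refine ⟨w, hw, ?_⟩
  have hid : (𝟙 (ModuleCat.of S (Fin b → S))) = ∑ k : Fin b,
      ModuleCat.ofHom (LinearMap.proj (R := S) (φ := fun _ : Fin b => S) k) ≫
        ModuleCat.ofHom (LinearMap.single S (fun _ : Fin b => S) k) := by
    ext1
    rw [ModuleCat.hom_sum]
    refine LinearMap.ext fun x => ?_
    rw [LinearMap.sum_apply]
    change x = ∑ k, Pi.single k (x k)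
    exact (Finset.univ_sum_single x).symm
  have hpt : pt (Y := ModuleCat.of S (Fin b → S)) w = ∑ k : Fin b,
      pt (Y := ModuleCat.of S S) (w k) ≫
        ModuleCat.ofHom (LinearMap.single S (fun _ : Fin b => S) k) := by
    rw [← Category.comp_id (pt (Y := ModuleCat.of S (Fin b → S)) w), hid, Preadditive.comp_sum]
    refine Finset.sum_congr rfl fun k _ => ?_
    rw [← Category.assoc, pt_comp]
    rfl
  rw [hpt, Ext.mk₀_sum, Ext.comp_sum]
  have hv : v = ∑ k : Fin b, (v.comp (Ext.mk₀ (ModuleCat.ofHom (LinearMap.proj k)))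
      (add_zero n)).comp (Ext.mk₀ (ModuleCat.ofHom (LinearMap.single S (fun _ : Fin b => S) k)))
        (add_zero n) := by
    conv_lhs => rw [← Ext.comp_mk₀_id v, hid, Ext.mk₀_sum, Ext.comp_sum]
    refine Finset.sum_congr rfl fun k _ => ?_
    rw [Ext.comp_assoc_of_third_deg_zero, Ext.mk₀_comp_mk₀]
  conv_rhs => rw [hv, Ext.comp_sum]
  refine Finset.sum_congr rfl fun k _ => ?_
  rw [← Ext.comp_assoc_of_third_deg_zero, ← hw' k, Ext.comp_assoc_of_third_deg_zero,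
    Ext.mk₀_comp_mk₀]

/-- If `Ext^{n+1}(S/I, -) = 0` then the restriction to `S/J` of every class of `Ext^n(S/I, Y)` lies
in `(J : I) Y`. -/
lemma lift_general {J I : Ideal S} (hJI : J ≤ I) {n : ℕ} {u : Ext (Qt J) (ModuleCat.of S S) n}
    (hu : GenExt J n u) (hI : ∀ Y : ModuleCat.{u} S, Subsingleton (Ext (Qt I) Y (n + 1)))
    (Y : ModuleCat.{u} S) [Module.Finite S Y] (v : Ext (Qt I) Y n) :
    ∃ y ∈ (J.colon (I : Set S)) • (⊤ : Submodule S Y),
      u.comp (Ext.mk₀ (pt y)) (add_zero n) =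
        (Ext.mk₀ (qmap hJI)).comp v (zero_add n) := by
  obtain ⟨b, g, hg⟩ := Module.Finite.exists_fin' S Y
  have hex := LinearMap.shortExact_shortComplexKer hg
  obtain ⟨v', hv'⟩ := Ext.covariant_sequence_exact₃ (Qt I) hex v rfl
    (@Subsingleton.elim _ (hI _) _ _)
  obtain ⟨w, hw, hw'⟩ := lift_free hJI hu v'
  refine ⟨g w, ?_, ?_⟩
  · have : g w = ∑ k, w k • g (Pi.single k 1) := by
      conv_lhs => rw [← Finset.univ_sum_single w]
      rw [map_sum]
      refine Finset.sum_congr rfl fun k _ => ?_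
      rw [← map_smul, ← Pi.single_smul, smul_eq_mul, mul_one]
    rw [this]
    exact Submodule.sum_mem _ fun k _ => Submodule.smul_mem_smul (hw k) Submodule.mem_top
  · have hpt : pt (Y := Y) (g w) = pt (Y := ModuleCat.of S (Fin b → S)) w ≫ ModuleCat.ofHom g := by
      rw [pt_comp]
    have hv'' : v = v'.comp (Ext.mk₀ (ModuleCat.ofHom g)) (add_zero n) := hv'.symm
    rw [hpt, ← Ext.mk₀_comp_mk₀, ← Ext.comp_assoc_of_third_deg_zero, hw',
      Ext.comp_assoc_of_third_deg_zero, hv'']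

/-- the ideals `(x_0, …, x_{j-1})`. -/
def Jx (x : ℕ → S) : ℕ → Ideal S
  | 0 => ⊥
  | (j + 1) => Jx x j ⊔ Ideal.span {x j}

lemma Jx_le {x : ℕ → S} {I : Ideal S} {n : ℕ} (hx : ∀ j < n, x j ∈ I) : Jx x n ≤ I := by
  induction n with
  | zero => exact bot_le
  | succ n ih =>
    exact sup_le (ih fun j hj => hx j (by omega))
      ((Ideal.span_singleton_le_iff_mem I).mpr (hx n (by omega)))

lemma mem_Jx_vanish {x : ℕ → S} {I : Ideal S} {n : ℕ} (hx : ∀ j < n, x j ∈ I)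
    (g : I →ₗ[S] (S ⧸ I)) (hg : ∀ j (hj : j < n), g ⟨x j, hx j hj⟩ = 0) (z : S) (hz : z ∈ Jx x n)
    (hzI : z ∈ I) : g ⟨z, hzI⟩ = 0 := by
  induction n generalizing z with
  | zero =>
    have : z = 0 := hz
    subst this
    exact map_zero g
  | succ n ih =>
    obtain ⟨a, ha⟩ := mem_sup_span hz
    have haI : z - a * x n ∈ I := I.sub_mem hzI (I.mul_mem_left a (hx n (by omega)))
    have h1 : (⟨z, hzI⟩ : I) = ⟨z - a * x n, haI⟩ + a • ⟨x n, hx n (by omega)⟩ := by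
      ext
      simp
    rw [h1, map_add, map_smul, hg n (by omega), smul_zero, add_zero]
    exact ih (fun j hj => hx j (by omega)) (fun j hj => hg j (by omega)) _ ha haI

lemma chain {I : Ideal S} (x t : ℕ → S) (n : ℕ) (hx : ∀ j < n + 1, x j ∈ I)
    (hreg : ∀ j < n + 1, IsSMulRegular (S ⧸ Jx x j) (x j)) (g : ℕ → I →ₗ[S] (S ⧸ I))
    (hg0 : ∀ j (hj : j < n + 1), ∀ i (hi : i < j), g j ⟨x i, hx i (by omega)⟩ = 0)
    (hgt : ∀ j (hj : j < n + 1), 0 < j → g j ⟨x j, hx j hj⟩ = Submodule.Quotient.mk (t j)) :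
    ∃ (J : Ideal S) (_ : J = Jx x (n + 1)) (hJI : J ≤ I)
      (m : ℕ) (_ : m = n + 1) (u : Ext (Qt J) (ModuleCat.of S S) m)
      (ν : Ext (Qt I) (IdO I) m) (y : I), (y : S) = (∏ i ∈ Finset.range n, t (i + 1)) * x 0 ∧
      GenExt J m u ∧ (Ext.mk₀ (qmap hJI)).comp ν (zero_add m) =
        u.comp (Ext.mk₀ (pt (Y := IdO I) y)) (add_zero m) := by
  induction n with
  | zero =>
    have hr0 : IsSMulRegular (S ⧸ (⊥ : Ideal S)) (x 0) := hreg 0 (by omega)
    have hle : (⊥ : Ideal S) ⊔ Ideal.span {x 0} ≤ I :=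
      sup_le bot_le ((Ideal.span_singleton_le_iff_mem I).mpr (hx 0 (by omega)))
    exact ⟨⊥ ⊔ Ideal.span {x 0}, rfl, hle, 1, rfl, (sesT_exact ⊥ (x 0) hr0).extClass.comp u0 rfl,
      (sesI_exact I).extClass, ⟨x 0, hx 0 (by omega)⟩, by simp,
      (GenExt.base u0 rfl).step (x 0) hr0, compat_base (I := I) (x 0) hr0 hle (hx 0 (by omega))⟩
  | succ n ih =>
    obtain ⟨J, hJ, hJI, m, hm, u, ν, y, hy, hu, hν⟩ := ih (fun j hj => hx j (by omega))
      (fun j hj => hreg j (by omega)) (fun j hj i hi => hg0 j (by omega) i hi)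
      (fun j hj h0 => hgt j (by omega) h0)
    have hr : IsSMulRegular (S ⧸ J) (x (n + 1)) := by
      rw [hJ]; exact hreg (n + 1) (by omega)
    have hle : J ⊔ Ideal.span {x (n + 1)} ≤ I :=
      sup_le hJI ((Ideal.span_singleton_le_iff_mem I).mpr (hx (n + 1) (by omega)))
    refine ⟨J ⊔ Ideal.span {x (n + 1)}, by rw [hJ]; rfl, hle, 1 + m, by omega,
      (sesT_exact _ (x (n + 1)) hr).extClass.comp u rfl,
      (sesI_exact I).extClass.comp ((Ext.mk₀ (ModuleCat.ofHom (g (n + 1)))).comp ν (zero_add m)) rfl,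
      t (n + 1) • y, ?_, hu.step (x (n + 1)) hr, ?_⟩
    · rw [Submodule.coe_smul, hy, Finset.prod_range_succ, smul_eq_mul]
      ring
    · exact compat_step hJI ν y hν (x (n + 1)) hr hle
        (g (n + 1)) (t (n + 1)) (fun z hz => mem_Jx_vanish (fun j hj => hx j (by omega)) _
          (fun j hj => hg0 (n + 1) (by omega) j hj) z (by rw [← hJ]; exact hz) _)
        (hgt (n + 1) (by omega) (by omega))

/-- **Key lemma**. -/
theorem key_colon {I : Ideal S} (hfg : I.FG) (x t : ℕ → S) (n : ℕ) (hx : ∀ j < n + 1, x j ∈ I)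
    (hreg : ∀ j < n + 1, IsSMulRegular (S ⧸ Jx x j) (x j)) (g : ℕ → I →ₗ[S] (S ⧸ I))
    (hg0 : ∀ j (hj : j < n + 1), ∀ i (hi : i < j), g j ⟨x i, hx i (by omega)⟩ = 0)
    (hgt : ∀ j (hj : j < n + 1), 0 < j → g j ⟨x j, hx j hj⟩ = Submodule.Quotient.mk (t j))
    (hpd : ∀ Y : ModuleCat.{u} S, Subsingleton (Ext (Qt I) Y (n + 2))) :
    (∏ i ∈ Finset.range n, t (i + 1)) * x 0 ∈ (Jx x (n + 1)).colon (I : Set S) * I := by
  obtain ⟨J, hJ, hJI, m, rfl, u, ν, z, hz, hu, hν⟩ := chain x t n hx hreg g hg0 hgt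
  rw [← hJ, ← hz]
  have : Module.Finite S I := Module.Finite.iff_fg.mpr hfg
  obtain ⟨y, hy, hy'⟩ := lift_general hJI hu hpd (IdO I) ν
  rw [hν] at hy'
  have h1 := hu.inj' _ _ _ hy'.symm
  have h2 : J ≤ J.colon (I : Set S) := Ideal.le_colon
  have h3 := Submodule.add_mem _ (Submodule.smul_mono_left h2 h1) hy
  rw [sub_add_cancel] at h3
  have h4 := Submodule.mem_map_of_mem (f := Submodule.subtype I) h3
  have h5 : Submodule.map (Submodule.subtype I)
    (J.colon (I : Set S) • (⊤ : Submodule S I)) = J.colon (I : Set S) * I := by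
    rw [Submodule.map_smul'', Submodule.map_subtype_top, smul_eq_mul]
  rw [h5] at h4
  exact h4

end Pool.Agent.Lib.Helper92
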