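import Pool.Agent.Lib.Helper92.Normal

/-!
Free normal module, perfect ideal: the ideal is generated by a regular sequence.
-/

set_option autoImplicit false
open CategoryTheory CategoryTheory.Abelian

namespace Pool.Agent.Lib.Helper92
universe u
variable {S : Type u} [CommRing S]

lemma Jx_induct {x : ℕ → S} {I : Ideal S} {n : ℕ} (hx : ∀ j < n, x j ∈ I)
    (g : I →ₗ[S] (S ⧸ I)) (N : Submodule S (S ⧸ I))
    (hg : ∀ j (hj : j < n), g ⟨x j, hx j hj⟩ ∈ N) (z : S) (hz : z ∈ Jx x n)
    (hzI : z ∈ I) : g ⟨z, hzI⟩ ∈ N := by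
  induction n generalizing z with
  | zero =>
    have : z = 0 := hz
    subst this
    have : (⟨0, hzI⟩ : I) = 0 := rfl
    rw [this, map_zero]
    exact N.zero_mem
  | succ n ih =>
    obtain ⟨a, ha⟩ := mem_sup_span hz
    have haI : z - a * x n ∈ I := I.sub_mem hzI (I.mul_mem_left a (hx n (by omega)))
    have h1 : (⟨z, hzI⟩ : I) = ⟨z - a * x n, haI⟩ + a • ⟨x n, hx n (by omega)⟩ := by
      ext
      simp
    rw [h1, map_add, map_smul]
    exact N.add_mem (ih (fun j hj => hx j (by omega)) (fun j hj => hg j (by omega)) _ ha haI)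
      (N.smul_mem a (hg n (by omega)))

lemma smul_quot_eq_zero {I : Ideal S} {a : S} (ha : a ∈ I) (c : S ⧸ I) : a • c = 0 := by
  obtain ⟨c, rfl⟩ := Submodule.Quotient.mk_surjective _ c
  rw [← Submodule.Quotient.mk_smul, Submodule.Quotient.mk_eq_zero, smul_eq_mul]
  exact I.mul_mem_right _ ha

lemma mul_mem_smul_top {I J : Ideal S} {q : S} (hq : q ∈ J * I) (hqI : q ∈ I) :
    (⟨q, hqI⟩ : I) ∈ J • (⊤ : Submodule S I) := by
  have h5 : Submodule.map (Submodule.subtype I) (J • (⊤ : Submodule S I)) = J * I := by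
    rw [Submodule.map_smul'', Submodule.map_subtype_top, smul_eq_mul]
  rw [← h5] at hq
  obtain ⟨y, hy, hyq⟩ := hq
  have : y = ⟨q, hqI⟩ := Subtype.ext hyq
  rwa [this] at hy

lemma monic_eval_sub_mem {I : Ideal S} (p : Polynomial S) (hp : p.Monic)
    (hc : ∀ k, p.coeff k ∈ I ^ (p.natDegree - k)) (a : S) : p.eval a - a ^ p.natDegree ∈ I := by
  rw [Polynomial.eval_eq_sum_range, Finset.sum_range_succ]
  have : p.coeff p.natDegree = 1 := hp
  rw [this, one_mul, add_sub_cancel_right]
  refine Ideal.sum_mem _ fun k hk => I.mul_mem_right _ ?_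
  have hk' : k < p.natDegree := Finset.mem_range.mp hk
  have h1 : I ^ (p.natDegree - k) ≤ I ^ 1 := Ideal.pow_le_pow_right (by omega)
  rw [pow_one] at h1
  exact h1 (hc k)

/-- the `j`-th standard vector of `(S/I)^r` (zero if `j ≥ r`). -/
noncomputable def sv (I : Ideal S) (r : ℕ) (j : ℕ) : Fin r → S ⧸ I :=
  fun i => if (i : ℕ) = j then Submodule.Quotient.mk 1 else 0

lemma smul_sv_apply (I : Ideal S) (r j : ℕ) (t : S) (i : Fin r) :
    (t • sv I r j) i = if (i : ℕ) = j then Submodule.Quotient.mk t else 0 := by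
  rw [Pi.smul_apply, sv]
  split_ifs
  · rw [← Submodule.Quotient.mk_smul, smul_eq_mul, mul_one]
  · rw [smul_zero]

/-- the grade is at most the rank of the normal module. -/
lemma NBasis.le_rank [IsNoetherianRing S] [IsLocalRing S] {I : Ideal S} (hI : I ≠ ⊤) {n : ℕ}
    (hgr : ∀ i < n, Subsingleton (Ext (Qt I) (ModuleCat.of S S) i)) {r : ℕ}
    {h : Fin r → (I →ₗ[S] (S ⧸ I))} (hb : NBasis I h) : n ≤ r := by
  by_contra hlt
  push Not at hlt
  obtain ⟨t, ht, htreg, -⟩ := hb.exists_t 1 (fun a b hab => by simpa using hab)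
  obtain ⟨x, hx, hxv, hreg⟩ := exists_good hI hgr h (fun j => t • sv I r j) r hlt.le
    (fun j _ => ht _)
  obtain ⟨z, hzI, hz⟩ := exists_regular_mem hgr x r hlt hreg
  set J := Jx x r with hJ
  have hJI : J ≤ I := Jx_le hx
  -- the quotient `I / (J + I²)`
  let K : Submodule S I := Submodule.comap (Submodule.subtype I) (J ⊔ I * I)
  have hs : Subsingleton ((I ⧸ K) →ₗ[S] (S ⧸ I)) := by
    refine ⟨fun f g => ?_⟩
    rw [← sub_eq_zero]
    obtain ⟨a, ha⟩ := hb.span ((f - g) ∘ₗ K.mkQ)
    have haI : ∀ i, a i ∈ I := by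
      intro i
      have h1 : ((f - g) ∘ₗ K.mkQ) ⟨x i, hx i i.2⟩ = 0 := by
        rw [LinearMap.comp_apply]
        have : K.mkQ ⟨x i, hx i i.2⟩ = 0 := by
          rw [Submodule.mkQ_apply, Submodule.Quotient.mk_eq_zero]
          refine Submodule.mem_comap.mpr (Ideal.mem_sup_left ?_)
          change x i ∈ J
          have h3 : Jx x (i + 1) ≤ J := by
            have : ∀ m, (i : ℕ) + 1 ≤ m → Jx x (i + 1) ≤ Jx x m := by
              intro m hm
              induction m, hm using Nat.le_induction with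
              | base => exact le_rfl
              | succ m _ ih => exact ih.trans le_sup_left
            exact this r i.2
          exact h3 (Ideal.mem_sup_right (Ideal.mem_span_singleton_self _))
        rw [this, map_zero]
      rw [ha, LinearMap.sum_apply] at h1
      have h2 : ∀ k : Fin r, (a k • h k) ⟨x i, hx i i.2⟩ =
          if (k : ℕ) = i then Submodule.Quotient.mk (a k * t) else 0 := by
        intro k
        have := congrFun (hxv i i.2) k
        change a k • (h k ⟨x i, hx i i.2⟩) = _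
        have h3 : h k ⟨x i, hx i i.2⟩ = (t • sv I r i) k := this
        rw [h3, smul_sv_apply]
        split_ifs
        · rw [← Submodule.Quotient.mk_smul, smul_eq_mul]
        · rw [smul_zero]
      simp only [h2] at h1
      rw [Finset.sum_eq_single i (fun b _ hbi => if_neg (fun hc => hbi (Fin.ext hc)))
        (fun h => absurd (Finset.mem_univ i) h), if_pos rfl] at h1
      have h4 : t • (Submodule.Quotient.mk (a i) : S ⧸ I) = t • 0 := by
        rw [smul_zero, ← Submodule.Quotient.mk_smul, smul_eq_mul, mul_comm]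
        exact h1
      exact (Submodule.Quotient.mk_eq_zero _).mp (htreg h4)
    have h0 : (f - g) ∘ₗ K.mkQ = 0 := by
      rw [ha]
      apply LinearMap.ext
      intro y
      rw [LinearMap.sum_apply, LinearMap.zero_apply]
      exact Finset.sum_eq_zero fun i _ => smul_quot_eq_zero (haI i) _
    apply LinearMap.ext
    intro c
    obtain ⟨y, rfl⟩ := Submodule.mkQ_surjective _ c
    exact LinearMap.congr_fun h0 y
  obtain ⟨a, haK, hareg⟩ := IsSMulRegular.subsingleton_linearMap_iff.mp hs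
  -- Cayley-Hamilton on `I / J`
  let L : Submodule S I := Submodule.comap (Submodule.subtype I) J
  let f : Module.End S (I ⧸ L) := algebraMap S (Module.End S (I ⧸ L)) a
  have hf : LinearMap.range f ≤ I • ⊤ := by
    rintro _ ⟨c, rfl⟩
    obtain ⟨y, rfl⟩ := Submodule.mkQ_surjective _ c
    have h1 : a • (Submodule.Quotient.mk y : I ⧸ K) = 0 := Module.mem_annihilator.mp haK _
    rw [← Submodule.Quotient.mk_smul, Submodule.Quotient.mk_eq_zero] at h1
    obtain ⟨j, hj, q, hq, hjq⟩ := Submodule.mem_sup.mp (Submodule.mem_comap.mp h1)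
    have hjq' : j + q = a * y := hjq
    have hqI : q ∈ I := Ideal.mul_le_left hq
    have h2 : f (L.mkQ y) = L.mkQ ⟨q, hqI⟩ := by
      change a • L.mkQ y = _
      rw [← map_smul, Submodule.mkQ_apply, Submodule.mkQ_apply, Submodule.Quotient.eq]
      change a * y - q ∈ J
      rw [← hjq', add_sub_cancel_right]
      exact hj
    rw [h2]
    have h3 := Submodule.mem_map_of_mem (f := L.mkQ) (mul_mem_smul_top hq hqI)
    rw [Submodule.map_smul''] at h3
    exact Submodule.smul_mono le_rfl le_top h3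
  obtain ⟨p, hp, -, hc, hp0⟩ :=
    LinearMap.exists_monic_and_natDegree_eq_and_coeff_mem_pow_and_aeval_eq_zero S f I hf
  rw [Polynomial.aeval_algebraMap_apply] at hp0
  have h1 : (Polynomial.aeval a p : S) • (Submodule.Quotient.mk (⟨z, hzI⟩ : I) : I ⧸ L) = 0 :=
    LinearMap.congr_fun hp0 _
  rw [← Submodule.Quotient.mk_smul, Submodule.Quotient.mk_eq_zero] at h1
  have h2 : (Polynomial.aeval a p : S) * z ∈ J := h1
  have h3 : (Polynomial.aeval a p : S) ∈ J := by
    have : z • (Submodule.Quotient.mk (Polynomial.aeval a p) : S ⧸ J) = z • 0 := by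
      rw [smul_zero, ← Submodule.Quotient.mk_smul, Submodule.Quotient.mk_eq_zero, smul_eq_mul,
        mul_comm]
      exact h2
    exact (Submodule.Quotient.mk_eq_zero _).mp (hz this)
  rw [Polynomial.coe_aeval_eq_eval] at h3
  have h4 := I.sub_mem (hJI h3) (monic_eval_sub_mem p hp hc a)
  rw [sub_sub_cancel] at h4
  have h5 : a ^ p.natDegree • (Submodule.Quotient.mk 1 : S ⧸ I) = a ^ p.natDegree • 0 := by
    rw [smul_zero, ← Submodule.Quotient.mk_smul, Submodule.Quotient.mk_eq_zero]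
    simpa using h4
  have h6 := (hareg.pow p.natDegree) h5
  rw [Submodule.Quotient.mk_eq_zero] at h6
  exact hI ((Ideal.eq_top_iff_one _).mpr h6)

lemma NBasis.comp_equiv {I : Ideal S} {r : ℕ} {h : Fin r → (I →ₗ[S] (S ⧸ I))} (hb : NBasis I h)
    (σ : Equiv.Perm (Fin r)) : NBasis I (h ∘ σ) where
  indep a ha i := by
    have h1 : ∑ i, (a ∘ σ.symm) i • h i = 0 := by
      rw [← ha, ← Equiv.sum_comp σ]
      refine Finset.sum_congr rfl fun i _ => ?_
      simp
    have := hb.indep _ h1 (σ i)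
    simpa using this
  span g := by
    obtain ⟨a, ha⟩ := hb.span g
    refine ⟨a ∘ σ, ?_⟩
    rw [ha, ← Equiv.sum_comp σ]
    rfl

/-- the first basis vector is hit. -/
lemma NBasis.exists_first [IsNoetherianRing S] [IsLocalRing S] {I : Ideal S} (hI : I ≠ ⊤) {n : ℕ}
    (hgr : ∀ i < n + 1, Subsingleton (Ext (Qt I) (ModuleCat.of S S) i))
    (hpd : ∀ Y : ModuleCat.{u} S, Subsingleton (Ext (Qt I) Y (n + 2))) {r : ℕ}
    {h : Fin r → (I →ₗ[S] (S ⧸ I))} (hb : NBasis I h) (hnr : n + 1 ≤ r) :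
    ∃ y, evI h y = sv I r 0 := by
  obtain ⟨t, ht⟩ := hb.exists_seq
  obtain ⟨x, hx, hxv, hreg⟩ := exists_good hI hgr h (fun j => t j • sv I r j) (n + 1) le_rfl
    (fun j _ => (ht j).1 _)
  have hhx : ∀ j (hj : j < n + 1) (i : Fin r), h i ⟨x j, hx j hj⟩ =
      if (i : ℕ) = j then Submodule.Quotient.mk (t j) else 0 := by
    intro j hj i
    have := congrFun (hxv j hj) i
    rw [smul_sv_apply] at this
    exact this
  let g : ℕ → (I →ₗ[S] (S ⧸ I)) := fun j => if hj : j < r then h ⟨j, hj⟩ else 0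
  have key := key_colon (I := I) ((isNoetherianRing_iff_ideal_fg S).mp inferInstance I) x t n hx hreg g
    (fun j hj i hi => by
      have hjr : j < r := by omega
      simp only [g, dif_pos hjr]
      rw [hhx i (by omega), if_neg (by simpa using (by omega : ¬ j = i))])
    (fun j hj _ => by
      have hjr : j < r := by omega
      simp only [g, dif_pos hjr]
      rw [hhx j hj, if_pos rfl]) hpd
  set J := Jx x (n + 1) with hJ
  set T := ∏ i ∈ Finset.range (n + 1), t i with hT
  have hTreg : IsSMulRegular (S ⧸ I) T := (ht (n + 1)).2.1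
  have hA : ∀ w ∈ J.colon (I : Set S), w ∈ I ⊔ Ideal.span {T} := by
    intro w hw
    refine mem_prod_of_mem t (n + 1) (fun j => (ht j).2.1) (fun j => (ht j).2.2) w ?_
    intro j hj
    have hjr : j < r := by omega
    have htj : IsSMulRegular (S ⧸ I) (t j) := by
      have h1 := (ht (j + 1)).2.1
      rw [Finset.prod_range_succ] at h1
      exact h1.of_mul
    have := hb.coeff_mem (fun i => if i = ⟨j, hjr⟩ then w else 0) (t j) htj (fun y => ?_) ⟨j, hjr⟩
    · simpa using this
    · have h1 : (∑ i, (if i = (⟨j, hjr⟩ : Fin r) then w else 0) • h i) y =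
          h ⟨j, hjr⟩ ⟨w * y, I.mul_mem_left _ y.2⟩ := by
        rw [LinearMap.sum_apply, Finset.sum_eq_single ⟨j, hjr⟩]
        · rw [if_pos rfl, LinearMap.smul_apply, ← map_smul]
          rfl
        · intro b _ hb
          rw [if_neg hb, LinearMap.smul_apply, zero_smul]
        · intro h; exact absurd (Finset.mem_univ _) h
      rw [h1]
      have hwy : w * y ∈ J := (Submodule.mem_colon.mp hw) y y.2
      have h2 := Jx_induct hx (h ⟨j, hjr⟩) (LinearMap.range (LinearMap.lsmul S (S ⧸ I) (t j)))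
        (fun k hk => by
          rw [hhx k hk]
          split_ifs with hjk
          · have : k = j := hjk.symm
            subst this
            exact ⟨Submodule.Quotient.mk 1, by
              rw [LinearMap.lsmul_apply, ← Submodule.Quotient.mk_smul, smul_eq_mul, mul_one]⟩
          · exact Submodule.zero_mem _) _ hwy (I.mul_mem_left _ y.2)
      obtain ⟨c, hc⟩ := h2
      exact ⟨c, hc.symm⟩
  have hB : ∀ p (_ : p ∈ J.colon (I : Set S) * I), ∃ hpI : p ∈ I, ∃ y : I,
      evI h ⟨p, hpI⟩ = T • evI h y := by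
    intro p hp
    induction hp using Submodule.mul_induction_on' with
    | mem_mul_mem w hw y hy =>
      refine ⟨I.mul_mem_left _ hy, ?_⟩
      obtain ⟨s, hs⟩ := mem_sup_span (hA w hw)
      refine ⟨s • ⟨y, hy⟩, ?_⟩
      have h1 : (⟨w * y, I.mul_mem_left _ hy⟩ : I) = (w - s * T) • ⟨y, hy⟩ + (s * T) • ⟨y, hy⟩ := by
        ext
        change w * y = (w - s * T) * y + (s * T) * y
        ring
      rw [h1, map_add, map_smul, map_smul, map_smul, smul_smul, mul_comm T s]
      have h2 : (w - s * T) • evI h ⟨y, hy⟩ = 0 := by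
        ext i
        exact smul_quot_eq_zero hs _
      rw [h2, zero_add]
    | add p _ q _ ihp ihq =>
      obtain ⟨hpI, y, hy⟩ := ihp
      obtain ⟨hqI, z, hz⟩ := ihq
      refine ⟨I.add_mem hpI hqI, y + z, ?_⟩
      rw [map_add, smul_add, ← hy, ← hz, ← map_add]
      rfl
  obtain ⟨hpI, y, hy⟩ := hB _ key
  refine ⟨y, ?_⟩
  have h1 : evI h ⟨(∏ i ∈ Finset.range n, t (i + 1)) * x 0, hpI⟩ = T • sv I r 0 := by
    have h2 : (⟨(∏ i ∈ Finset.range n, t (i + 1)) * x 0, hpI⟩ : I) =
        (∏ i ∈ Finset.range n, t (i + 1)) • ⟨x 0, hx 0 (by omega)⟩ := rfl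
    rw [h2, map_smul, hxv 0 (by omega), smul_smul, hT, Finset.prod_range_succ']
  rw [h1] at hy
  ext i
  exact (hTreg (congrFun hy i)).symm

/-- all basis vectors are hit. -/
lemma NBasis.exists_all [IsNoetherianRing S] [IsLocalRing S] {I : Ideal S} (hI : I ≠ ⊤) {n : ℕ}
    (hgr : ∀ i < n + 1, Subsingleton (Ext (Qt I) (ModuleCat.of S S) i))
    (hpd : ∀ Y : ModuleCat.{u} S, Subsingleton (Ext (Qt I) Y (n + 2))) {r : ℕ}
    {h : Fin r → (I →ₗ[S] (S ⧸ I))} (hb : NBasis I h) (j : ℕ) :
    ∃ y, evI h y = sv I r j := by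
  have hnr := hb.le_rank hI hgr
  have hr0 : 0 < r := by omega
  by_cases hj : j < r
  · obtain ⟨y, hy⟩ := (hb.comp_equiv (Equiv.swap ⟨0, hr0⟩ ⟨j, hj⟩)).exists_first hI hgr hpd hnr
    refine ⟨y, ?_⟩
    ext i
    have := congrFun hy (Equiv.swap ⟨0, hr0⟩ ⟨j, hj⟩ i)
    have h2 : evI (h ∘ (Equiv.swap ⟨0, hr0⟩ ⟨j, hj⟩)) y (Equiv.swap ⟨0, hr0⟩ ⟨j, hj⟩ i) =
        evI h y i := by
      change h (Equiv.swap ⟨0, hr0⟩ ⟨j, hj⟩ (Equiv.swap ⟨0, hr0⟩ ⟨j, hj⟩ i)) y = h i y
      rw [Equiv.swap_apply_self]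
    rw [h2] at this
    rw [this, sv, sv]
    by_cases hij : (i : ℕ) = j
    · have : i = ⟨j, hj⟩ := Fin.ext hij
      subst this
      rw [Equiv.swap_apply_right]
      simp
    · rw [if_neg hij]
      by_cases hi0 : (i : ℕ) = 0
      · have : i = ⟨0, hr0⟩ := Fin.ext hi0
        rw [this, Equiv.swap_apply_left, if_neg]
        intro hj0
        exact hij (hi0.trans hj0.symm)
      · rw [Equiv.swap_apply_of_ne_of_ne (fun h => hi0 (congrArg Fin.val h))
          (fun h => hij (congrArg Fin.val h)), if_neg hi0]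
  · refine ⟨0, ?_⟩
    rw [map_zero]
    ext i
    rw [sv, if_neg (by omega)]
    rfl

/-- **Theorem** (free normal module, perfect ideal of positive grade). -/
theorem NBasis.exists_regular [IsNoetherianRing S] [IsLocalRing S] {I : Ideal S} (hI : I ≠ ⊤)
    {n : ℕ} (hgr : ∀ i < n + 1, Subsingleton (Ext (Qt I) (ModuleCat.of S S) i))
    (hpd : ∀ Y : ModuleCat.{u} S, Subsingleton (Ext (Qt I) Y (n + 2))) {r : ℕ}
    {h : Fin r → (I →ₗ[S] (S ⧸ I))} (hb : NBasis I h) :
    ∃ x : ℕ → S, (∀ j < n + 1, x j ∈ I) ∧ (∀ j < n + 1, IsSMulRegular (S ⧸ Jx x j) (x j)) ∧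
      Jx x (n + 1) = I := by
  have hnr := hb.le_rank hI hgr
  obtain ⟨x, hx, hxv, hreg⟩ := exists_good hI hgr h (fun j => sv I r j) (n + 1) le_rfl
    (fun j _ => hb.exists_all hI hgr hpd j)
  refine ⟨x, hx, hreg, le_antisymm (Jx_le hx) ?_⟩
  have hhx : ∀ j (hj : j < n + 1) (i : Fin r), h i ⟨x j, hx j hj⟩ =
      if (i : ℕ) = j then Submodule.Quotient.mk 1 else 0 := by
    intro j hj i
    have := congrFun (hxv j hj) i
    exact this
  let g : ℕ → (I →ₗ[S] (S ⧸ I)) := fun j => if hj : j < r then h ⟨j, hj⟩ else 0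
  have key := key_colon (I := I) ((isNoetherianRing_iff_ideal_fg S).mp inferInstance I) x
    (fun _ => 1) n hx hreg g
    (fun j hj i hi => by
      have hjr : j < r := by omega
      simp only [g, dif_pos hjr]
      rw [hhx i (by omega), if_neg (by simpa using (by omega : ¬ j = i))])
    (fun j hj _ => by
      have hjr : j < r := by omega
      simp only [g, dif_pos hjr]
      rw [hhx j hj, if_pos rfl]) hpd
  set J := Jx x (n + 1) with hJ
  rw [Finset.prod_const_one, one_mul] at key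
  by_contra hle
  have hcol : J.colon (I : Set S) ≤ IsLocalRing.maximalIdeal S := by
    apply IsLocalRing.le_maximalIdeal
    intro htop
    rw [Submodule.colon_eq_top_iff_subset] at htop
    exact hle htop
  have h0r : 0 < r := by omega
  have hB : ∀ p (_ : p ∈ J.colon (I : Set S) * I), ∃ hpI : p ∈ I,
      h ⟨0, h0r⟩ ⟨p, hpI⟩ ∈ IsLocalRing.maximalIdeal S • (⊤ : Submodule S (S ⧸ I)) := by
    intro p hp
    induction hp using Submodule.mul_induction_on' with
    | mem_mul_mem w hw y hy =>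
      refine ⟨I.mul_mem_left _ hy, ?_⟩
      have h1 : (⟨w * y, I.mul_mem_left _ hy⟩ : I) = w • ⟨y, hy⟩ := rfl
      rw [h1, map_smul]
      exact Submodule.smul_mem_smul (hcol hw) Submodule.mem_top
    | add p _ q _ ihp ihq =>
      obtain ⟨hpI, h1⟩ := ihp
      obtain ⟨hqI, h2⟩ := ihq
      refine ⟨I.add_mem hpI hqI, ?_⟩
      have h3 : (⟨p + q, I.add_mem hpI hqI⟩ : I) = ⟨p, hpI⟩ + ⟨q, hqI⟩ := rfl
      rw [h3, map_add]
      exact Submodule.add_mem _ h1 h2
  obtain ⟨hpI, h1⟩ := hB _ key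
  rw [hhx 0 (by omega) ⟨0, h0r⟩, if_pos rfl] at h1
  have h2 : (⊤ : Submodule S (S ⧸ I)) = Submodule.map I.mkQ ⊤ := by
    rw [Submodule.map_top, Submodule.range_mkQ]
  rw [h2, ← Submodule.map_smul''] at h1
  obtain ⟨c, hc, hc1⟩ := h1
  have h3 : c ∈ IsLocalRing.maximalIdeal S := by
    have : IsLocalRing.maximalIdeal S • (⊤ : Submodule S S) = IsLocalRing.maximalIdeal S := by
      rw [smul_eq_mul]; exact Ideal.mul_top _
    rw [← this]; exact hc
  have h4 : c - 1 ∈ I := (Submodule.Quotient.eq I).mp hc1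
  have h5 := Ideal.sub_mem _ h3 (IsLocalRing.le_maximalIdeal hI h4)
  rw [sub_sub_cancel] at h5
  exact (Ideal.ne_top_iff_one _).mp (IsLocalRing.maximalIdeal.isMaximal S).ne_top h5

end Pool.Agent.Lib.Helper92
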