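import Pool.Agent.Lib.Helper92.ExtLift

/-!
Commutative algebra around the normal module `Hom_S(I, S/I)` when it is free.
-/

set_option autoImplicit false
open CategoryTheory CategoryTheory.Abelian

namespace Pool.Agent.Lib.Helper92
universe u
variable {S : Type u} [CommRing S]

/-- `h` is an `S/I`-basis of `Hom_S(I, S/I)`, phrased with coefficients in `S`. -/
structure NBasis (I : Ideal S) {r : ℕ} (h : Fin r → (I →ₗ[S] (S ⧸ I))) : Prop where
  indep : ∀ a : Fin r → S, (∑ i, a i • h i) = 0 → ∀ i, a i ∈ I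
  span : ∀ g : I →ₗ[S] (S ⧸ I), ∃ a : Fin r → S, g = ∑ i, a i • h i

/-- the evaluation map `I → (S/I)^r`. -/
noncomputable abbrev evI {I : Ideal S} {r : ℕ} (h : Fin r → (I →ₗ[S] (S ⧸ I))) :
    I →ₗ[S] (Fin r → S ⧸ I) := LinearMap.pi h

lemma qmk_sum {I : Ideal S} {r : ℕ} (f : Fin r → S) :
    (Submodule.Quotient.mk (∑ i, f i) : S ⧸ I) = ∑ i, (Submodule.Quotient.mk (f i) : S ⧸ I) :=
  map_sum (Submodule.mkQ I) f Finset.univ

lemma phi_apply {I K : Ideal S} {r : ℕ} (φ : (Fin r → S ⧸ I) →ₗ[S] (S ⧸ K)) (a : Fin r → S)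
    (ha : ∀ i, (Submodule.Quotient.mk (a i) : S ⧸ K) =
      φ (Pi.single i (Submodule.Quotient.mk 1))) (v : Fin r → S) :
    φ (fun i => Submodule.Quotient.mk (v i)) = Submodule.Quotient.mk (∑ i, a i * v i) := by
  have hv : (fun i => (Submodule.Quotient.mk (v i) : S ⧸ I)) =
      ∑ i, v i • (Pi.single i (Submodule.Quotient.mk 1) : Fin r → S ⧸ I) := by
    ext j
    rw [Finset.sum_apply, Finset.sum_eq_single j]
    · rw [Pi.smul_apply, Pi.single_eq_same, ← Submodule.Quotient.mk_smul, smul_eq_mul, mul_one]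
    · intro b _ hb
      rw [Pi.smul_apply, Pi.single_eq_of_ne hb.symm, smul_zero]
    · intro h; exact absurd (Finset.mem_univ j) h
  rw [hv, map_sum, qmk_sum]
  refine Finset.sum_congr rfl fun i _ => ?_
  rw [map_smul, ← ha i, ← Submodule.Quotient.mk_smul, smul_eq_mul, mul_comm]

lemma exists_smul_eq {I : Ideal S} (g : I →ₗ[S] (S ⧸ I)) (t : S)
    (ht : IsSMulRegular (S ⧸ I) t) (hg : ∀ y, ∃ z : S ⧸ I, g y = t • z) :
    ∃ g' : I →ₗ[S] (S ⧸ I), g = t • g' := by
  let f := LinearMap.lsmul S (S ⧸ I) t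
  refine ⟨(LinearEquiv.ofInjective f ht).symm.toLinearMap ∘ₗ
    LinearMap.codRestrict (LinearMap.range f) g (fun y => ?_), ?_⟩
  · obtain ⟨z, hz⟩ := hg y
    exact ⟨z, hz.symm⟩
  · ext y
    have := LinearEquiv.ofInjective_apply f (h := ht)
      (x := (LinearEquiv.ofInjective f ht).symm
        (LinearMap.codRestrict (LinearMap.range f) g (fun y => by
          obtain ⟨z, hz⟩ := hg y
          exact ⟨z, hz.symm⟩) y))
    rw [LinearEquiv.apply_symm_apply] at this
    exact this

lemma NBasis.coeff_mem {I : Ideal S} {r : ℕ} {h : Fin r → (I →ₗ[S] (S ⧸ I))} (hb : NBasis I h)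
    (a : Fin r → S) (t : S) (ht : IsSMulRegular (S ⧸ I) t)
    (hg : ∀ y, ∃ z : S ⧸ I, (∑ i, a i • h i) y = t • z) (i : Fin r) :
    a i ∈ I ⊔ Ideal.span {t} := by
  obtain ⟨g', hg'⟩ := exists_smul_eq _ t ht hg
  obtain ⟨b, hb'⟩ := hb.span g'
  have h0 : ∑ i, (a i - t * b i) • h i = 0 := by
    have : ∀ i, (a i - t * b i) • h i = a i • h i - t • (b i • h i) := fun i => by
      ext y
      change (a i - t * b i) • (h i y) = a i • (h i y) - t • (b i • (h i y))
      rw [sub_smul, mul_smul]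
    simp only [this]
    rw [Finset.sum_sub_distrib, ← Finset.smul_sum, ← hb', hg', sub_self]
  have := hb.indep _ h0 i
  have h2 : a i = (a i - t * b i) + t * b i := by ring
  rw [h2]
  exact Ideal.add_mem _ (Ideal.mem_sup_left this)
    (Ideal.mem_sup_right (Ideal.mul_mem_right _ _ (Ideal.mem_span_singleton_self t)))

/-- every `φ : (S/I)^r → S/(I + t)` vanishing on the image of `I` vanishes. -/
lemma NBasis.hom_zero {I : Ideal S} {r : ℕ} {h : Fin r → (I →ₗ[S] (S ⧸ I))} (hb : NBasis I h)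
    (t : S) (ht : IsSMulRegular (S ⧸ I) t)
    (φ : (Fin r → S ⧸ I) →ₗ[S] (S ⧸ (I ⊔ Ideal.span {t})))
    (hφ : ∀ y, φ (evI h y) = 0) : φ = 0 := by
  have h1 : ∀ i, ∃ a : S, (Submodule.Quotient.mk a : S ⧸ (I ⊔ Ideal.span {t})) =
      φ (Pi.single i (Submodule.Quotient.mk 1)) := fun i =>
    Submodule.Quotient.mk_surjective _ _
  choose a ha using h1
  have hφv := phi_apply φ a ha
  have hmem : ∀ i, a i ∈ I ⊔ Ideal.span {t} := by
    intro i
    refine hb.coeff_mem a t ht (fun y => ?_) i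
    have h2 : ∀ i, ∃ v : S, (Submodule.Quotient.mk v : S ⧸ I) = h i y := fun i =>
      Submodule.Quotient.mk_surjective _ _
    choose v hv using h2
    have h3 := hφ y
    have h4 : evI h y = fun i => Submodule.Quotient.mk (v i) := by
      ext i
      rw [hv i]; rfl
    rw [h4, hφv, Submodule.Quotient.mk_eq_zero] at h3
    obtain ⟨c, hc⟩ := mem_sup_span h3
    refine ⟨Submodule.Quotient.mk c, ?_⟩
    rw [LinearMap.sum_apply]
    have h5 : ∀ i, (a i • h i) y = Submodule.Quotient.mk (a i * v i) := by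
      intro i
      rw [LinearMap.smul_apply, ← hv i, ← Submodule.Quotient.mk_smul, smul_eq_mul]
    simp only [h5]
    rw [← Submodule.Quotient.mk_smul, ← qmk_sum, Submodule.Quotient.eq]
    simpa [mul_comm] using hc
  apply LinearMap.ext
  intro v
  have h2 : ∀ i, ∃ w : S, (Submodule.Quotient.mk w : S ⧸ I) = v i := fun i =>
      Submodule.Quotient.mk_surjective _ _
  choose w hw using h2
  have : v = fun i => Submodule.Quotient.mk (w i) := by
    ext i; rw [hw i]
  rw [this, hφv, LinearMap.zero_apply, Submodule.Quotient.mk_eq_zero]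
  exact Ideal.sum_mem _ fun i _ => Ideal.mul_mem_right _ _ (hmem i)

/-- every `φ : (S/I)^r → S/I` vanishing on the image of `I` vanishes. -/
lemma NBasis.hom_zero' {I : Ideal S} {r : ℕ} {h : Fin r → (I →ₗ[S] (S ⧸ I))} (hb : NBasis I h)
    (φ : (Fin r → S ⧸ I) →ₗ[S] (S ⧸ I))
    (hφ : ∀ y, φ (evI h y) = 0) : φ = 0 := by
  have h1 : ∀ i, ∃ a : S, (Submodule.Quotient.mk a : S ⧸ I) =
      φ (Pi.single i (Submodule.Quotient.mk 1)) := fun i =>
    Submodule.Quotient.mk_surjective _ _
  choose a ha using h1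
  have hφv := phi_apply φ a ha
  have hsum : ∑ i, a i • h i = 0 := by
    ext y
    have h2 : ∀ i, ∃ v : S, (Submodule.Quotient.mk v : S ⧸ I) = h i y := fun i =>
      Submodule.Quotient.mk_surjective _ _
    choose v hv using h2
    have h3 := hφ y
    have h4 : evI h y = fun i => Submodule.Quotient.mk (v i) := by
      ext i
      rw [hv i]; rfl
    rw [h4, hφv] at h3
    rw [LinearMap.sum_apply, LinearMap.zero_apply, ← h3]
    have h5 : ∀ i, (a i • h i) y = Submodule.Quotient.mk (a i * v i) := by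
      intro i
      rw [LinearMap.smul_apply, ← hv i, ← Submodule.Quotient.mk_smul, smul_eq_mul]
    simp only [h5]
    rw [← qmk_sum]
  have hmem := hb.indep a hsum
  apply LinearMap.ext
  intro v
  have h2 : ∀ i, ∃ w : S, (Submodule.Quotient.mk w : S ⧸ I) = v i := fun i =>
      Submodule.Quotient.mk_surjective _ _
  choose w hw using h2
  have : v = fun i => Submodule.Quotient.mk (w i) := by
    ext i; rw [hw i]
  rw [this, hφv, LinearMap.zero_apply, Submodule.Quotient.mk_eq_zero]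
  exact Ideal.sum_mem _ fun i _ => Ideal.mul_mem_right _ _ (hmem i)

/-- there is `t` annihilating the cokernel of `I → (S/I)^r`, regular on `S/I` and on `S/(I+T)`. -/
lemma NBasis.exists_t [IsNoetherianRing S] {I : Ideal S} {r : ℕ}
    {h : Fin r → (I →ₗ[S] (S ⧸ I))} (hb : NBasis I h)
    (T : S) (hT : IsSMulRegular (S ⧸ I) T) :
    ∃ t : S, (∀ v : Fin r → S ⧸ I, t • v ∈ LinearMap.range (evI h)) ∧
      IsSMulRegular (S ⧸ I) t ∧ IsSMulRegular (S ⧸ (I ⊔ Ideal.span {T})) t := by
  let C := (Fin r → S ⧸ I) ⧸ LinearMap.range (evI h)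
  let L := (S ⧸ I) × (S ⧸ (I ⊔ Ideal.span {T}))
  have hs : Subsingleton (C →ₗ[S] L) := by
    refine ⟨fun f g => ?_⟩
    rw [← sub_eq_zero]
    have h1 : (LinearMap.fst S _ _ ∘ₗ (f - g)) ∘ₗ (LinearMap.range (evI h)).mkQ = 0 := by
      apply hb.hom_zero'
      intro y
      have : (LinearMap.range (evI h)).mkQ (evI h y) = 0 := by
        rw [Submodule.mkQ_apply, Submodule.Quotient.mk_eq_zero]
        exact ⟨y, rfl⟩
      rw [LinearMap.comp_apply, this, map_zero]
    have h2 : (LinearMap.snd S _ _ ∘ₗ (f - g)) ∘ₗ (LinearMap.range (evI h)).mkQ = 0 := by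
      apply hb.hom_zero T hT
      intro y
      have : (LinearMap.range (evI h)).mkQ (evI h y) = 0 := by
        rw [Submodule.mkQ_apply, Submodule.Quotient.mk_eq_zero]
        exact ⟨y, rfl⟩
      rw [LinearMap.comp_apply, this, map_zero]
    apply LinearMap.ext
    intro c
    obtain ⟨v, rfl⟩ := Submodule.mkQ_surjective _ c
    have h1' := LinearMap.congr_fun h1 v
    have h2' := LinearMap.congr_fun h2 v
    exact Prod.ext h1' h2'
  obtain ⟨t, ht, hreg⟩ := IsSMulRegular.subsingleton_linearMap_iff.mp hs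
  refine ⟨t, ?_, ?_, ?_⟩
  · intro v
    have := Module.mem_annihilator.mp ht (Submodule.Quotient.mk v)
    rw [← Submodule.Quotient.mk_smul, Submodule.Quotient.mk_eq_zero] at this
    exact this
  · intro x y hxy
    have := @hreg (x, 0) (y, 0) (by
      change (t • x, t • 0) = (t • y, t • 0)
      exact Prod.ext hxy rfl)
    exact congrArg Prod.fst this
  · intro x y hxy
    have := @hreg (0, x) (0, y) (by
      change (t • 0, t • x) = (t • 0, t • y)
      exact Prod.ext rfl hxy)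
    exact congrArg Prod.snd this

/-- a whole sequence of such `t`, pairwise coprime modulo `I`. -/
lemma NBasis.exists_seq [IsNoetherianRing S] {I : Ideal S} {r : ℕ}
    {h : Fin r → (I →ₗ[S] (S ⧸ I))} (hb : NBasis I h) :
    ∃ t : ℕ → S, ∀ j, (∀ v : Fin r → S ⧸ I, t j • v ∈ LinearMap.range (evI h)) ∧
      IsSMulRegular (S ⧸ I) (∏ i ∈ Finset.range j, t i) ∧
      IsSMulRegular (S ⧸ (I ⊔ Ideal.span {∏ i ∈ Finset.range j, t i})) (t j) := by
  choose f hf1 hf2 hf3 using hb.exists_t
  let F : ℕ → {T : S // IsSMulRegular (S ⧸ I) T} := fun n => Nat.rec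
    ⟨1, fun a b hab => by simpa using hab⟩
    (fun _ T => ⟨T.1 * f T.1 T.2, T.2.mul (hf2 T.1 T.2)⟩) n
  have hF : ∀ n, (F n).1 = ∏ i ∈ Finset.range n, f (F i).1 (F i).2 := by
    intro n
    induction n with
    | zero => rfl
    | succ n ih =>
      rw [Finset.prod_range_succ, ← ih]
  refine ⟨fun j => f (F j).1 (F j).2, fun j => ⟨hf1 _ _, ?_, ?_⟩⟩
  · rw [← hF]; exact (F j).2
  · rw [← hF]; exact hf3 _ _

lemma mem_prod_of_mem {I : Ideal S} (t : ℕ → S) (n : ℕ)
    (h1 : ∀ j, IsSMulRegular (S ⧸ I) (∏ i ∈ Finset.range j, t i))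
    (h2 : ∀ j, IsSMulRegular (S ⧸ (I ⊔ Ideal.span {∏ i ∈ Finset.range j, t i})) (t j)) (w : S)
    (hw : ∀ j < n, w ∈ I ⊔ Ideal.span {t j}) :
    w ∈ I ⊔ Ideal.span {∏ i ∈ Finset.range n, t i} := by
  induction n with
  | zero =>
    rw [Finset.prod_range_zero, Ideal.span_singleton_one, sup_top_eq]
    trivial
  | succ n ih =>
    obtain ⟨a, ha⟩ := mem_sup_span (ih fun j hj => hw j (by omega))
    obtain ⟨b, hb⟩ := mem_sup_span (hw n (by omega))
    set T := ∏ i ∈ Finset.range n, t i with hT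
    -- `a T ≡ b t_n` mod `I`
    have h3 : a * T - b * t n ∈ I := by
      have : a * T - b * t n = (w - b * t n) - (w - a * T) := by ring
      rw [this]; exact I.sub_mem hb ha
    have h4 : b ∈ I ⊔ Ideal.span {T} := by
      have := h2 n
      rw [← hT] at this
      have h5 : t n • (Submodule.Quotient.mk b : S ⧸ (I ⊔ Ideal.span {T})) = t n • 0 := by
        rw [smul_zero, ← Submodule.Quotient.mk_smul, Submodule.Quotient.mk_eq_zero, smul_eq_mul]
        have h6 : t n * b = a * T - (a * T - b * t n) := by ring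
        rw [h6]
        exact Ideal.sub_mem _ (Ideal.mem_sup_right (Ideal.mul_mem_left _ _
          (Ideal.mem_span_singleton_self T))) (Ideal.mem_sup_left h3)
      exact (Submodule.Quotient.mk_eq_zero _).mp (this h5)
    obtain ⟨c, hc⟩ := mem_sup_span h4
    have h7 : a - c * t n ∈ I := by
      have := h1 n
      rw [← hT] at this
      have h5 : T • (Submodule.Quotient.mk (a - c * t n) : S ⧸ I) = T • 0 := by
        rw [smul_zero, ← Submodule.Quotient.mk_smul, Submodule.Quotient.mk_eq_zero, smul_eq_mul]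
        have h6 : T * (a - c * t n) = (a * T - b * t n) + t n * (b - c * T) := by ring
        rw [h6]
        exact I.add_mem h3 (I.mul_mem_left _ hc)
      exact (Submodule.Quotient.mk_eq_zero _).mp (this h5)
    have h8 : w = (w - a * T) + T * (a - c * t n) + c * (T * t n) := by ring
    rw [Finset.prod_range_succ, ← hT, h8]
    exact Ideal.add_mem _ (Ideal.mem_sup_left (I.add_mem ha (I.mul_mem_left _ h7)))
      (Ideal.mem_sup_right (Ideal.mul_mem_left _ _ (Ideal.mem_span_singleton_self _)))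

/-- the coset trick. -/
lemma exists_pow_regular [IsNoetherianRing S] [IsLocalRing S] {J : Ideal S} (x z : S)
    (hzm : z ∈ IsLocalRing.maximalIdeal S) (hz : IsSMulRegular (S ⧸ J) z) :
    ∃ m : ℕ, 2 ≤ m ∧ IsSMulRegular (S ⧸ J) (x + z ^ m) := by
  by_contra hcon
  push Not at hcon
  have hfin := associatedPrimes.finite S (S ⧸ J)
  have hU := biUnion_associatedPrimes_eq_compl_regular S (S ⧸ J)
  have h1 : ∀ m : ℕ, ∃ p ∈ associatedPrimes S (S ⧸ J), x + z ^ (m + 2) ∈ p := by
    intro m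
    have : x + z ^ (m + 2) ∈ {r : S | IsSMulRegular (S ⧸ J) r}ᶜ := hcon (m + 2) (by omega)
    rw [← hU] at this
    simpa using this
  choose p hp hxp using h1
  have hninj : ∃ a b : ℕ, a < b ∧ p a = p b := by
    by_contra hc
    push Not at hc
    have hinj : Function.Injective p := by
      intro a b hab
      rcases lt_trichotomy a b with h | h | h
      · exact absurd hab (hc a b h)
      · exact h
      · exact absurd hab.symm (hc b a h)
    exact (Set.infinite_of_injective_forall_mem hinj hp) hfin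
  obtain ⟨a, b, hab, hpab⟩ := hninj
  have hprime : (p a).IsPrime := (hp a).isPrime
  have h2 : z ^ (a + 2) * (1 - z ^ (b - a)) ∈ p a := by
    have h3 : z ^ (a + 2) * (1 - z ^ (b - a)) = (x + z ^ (a + 2)) - (x + z ^ (b + 2)) := by
      have : z ^ (b + 2) = z ^ (a + 2) * z ^ (b - a) := by
        rw [← pow_add]; congr 1; omega
      rw [this]; ring
    rw [h3]
    exact (p a).sub_mem (hxp a) (by rw [hpab]; exact hxp b)
  have hu : IsUnit (1 - z ^ (b - a)) := by
    by_contra hnu
    have h4 : 1 - z ^ (b - a) ∈ IsLocalRing.maximalIdeal S := hnu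
    have h5 : z ^ (b - a) ∈ IsLocalRing.maximalIdeal S :=
      Ideal.pow_mem_of_mem _ hzm _ (by omega)
    have h6 := Ideal.add_mem _ h4 h5
    rw [sub_add_cancel] at h6
    exact (Ideal.ne_top_iff_one _).mp (IsLocalRing.maximalIdeal.isMaximal S).ne_top h6
  rcases hprime.mem_or_mem h2 with h3 | h3
  · have h4 : z ∈ p a := hprime.mem_of_pow_mem _ h3
    have : z ∈ ⋃ p ∈ associatedPrimes S (S ⧸ J), (p : Set S) := by
      simp only [Set.mem_iUnion]
      exact ⟨p a, hp a, h4⟩
    rw [hU] at this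
    exact this hz
  · exact hprime.ne_top (Ideal.eq_top_of_isUnit_mem _ h3 hu)

lemma van_quot {I : Ideal S} {n : ℕ}
    (hgr : ∀ i < n, Subsingleton (Ext (Qt I) (ModuleCat.of S S) i)) (x : ℕ → S) (k : ℕ)
    (hreg : ∀ j < k, IsSMulRegular (S ⧸ Jx x j) (x j)) (i : ℕ) (hi : i + k < n) :
    Subsingleton (Ext (Qt I) (Qt (Jx x k)) i) := by
  induction k generalizing i with
  | zero =>
    change Subsingleton (Ext (Qt I) (Qt (⊥ : Ideal S)) i)
    refine ⟨fun a b => ?_⟩
    rw [← sub_eq_zero]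
    have e : Qt (⊥ : Ideal S) ≅ ModuleCat.of S S :=
      (Submodule.quotEquivOfEqBot (⊥ : Ideal S) rfl).toModuleIso
    have h1 : (a - b).comp (Ext.mk₀ e.hom) (add_zero i) = 0 :=
      @Subsingleton.elim _ (hgr i (by omega)) _ _
    calc a - b = (a - b).comp (Ext.mk₀ (𝟙 (Qt (⊥ : Ideal S)))) (add_zero i) :=
          (Ext.comp_mk₀_id (a - b)).symm
      _ = (a - b).comp (Ext.mk₀ (e.hom ≫ e.inv)) (add_zero i) := by rw [e.hom_inv_id]
      _ = ((a - b).comp (Ext.mk₀ e.hom) (add_zero i)).comp (Ext.mk₀ e.inv) (add_zero i) := by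
          rw [Ext.comp_assoc_of_third_deg_zero, Ext.mk₀_comp_mk₀]
      _ = 0 := by rw [h1, Ext.zero_comp]
  | succ k ih =>
    refine ⟨fun a b => ?_⟩
    rw [← sub_eq_zero]
    have hT := sesT_exact (Jx x k) (x k) (hreg k (by omega))
    have h1 : (a - b : Ext (Qt I) (sesT (Jx x k) (x k)).X₃ i).comp hT.extClass rfl = 0 :=
      @Subsingleton.elim _ (ih (fun j hj => hreg j (by omega)) (i + 1) (by omega)) _ _
    obtain ⟨v, hv⟩ := Ext.covariant_sequence_exact₃ (Qt I) hT (a - b) rfl h1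
    rw [← hv, @Subsingleton.elim _ (ih (fun j hj => hreg j (by omega)) i (by omega)) v 0,
      Ext.zero_comp]
    rfl

lemma exists_regular_mem [IsNoetherianRing S] {I : Ideal S} {n : ℕ}
    (hgr : ∀ i < n, Subsingleton (Ext (Qt I) (ModuleCat.of S S) i)) (x : ℕ → S) (k : ℕ)
    (hk : k < n) (hreg : ∀ j < k, IsSMulRegular (S ⧸ Jx x j) (x j)) :
    ∃ z ∈ I, IsSMulRegular (S ⧸ Jx x k) z := by
  have h0 := van_quot hgr x k hreg 0 (by omega)
  have h1 : Subsingleton (Qt I ⟶ Qt (Jx x k)) := Ext.addEquiv₀.symm.subsingleton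
  have h2 : Subsingleton ((S ⧸ I) →ₗ[S] (S ⧸ Jx x k)) := (ModuleCat.homAddEquiv (M := Qt I) (N := Qt (Jx x k))).symm.subsingleton
  obtain ⟨z, hz, hreg⟩ := IsSMulRegular.subsingleton_linearMap_iff.mp h2
  rw [Ideal.annihilator_quotient] at hz
  exact ⟨z, hz, hreg⟩

lemma Jx_congr (x x' : ℕ → S) (n : ℕ) (h : ∀ j < n, x j = x' j) : Jx x n = Jx x' n := by
  induction n with
  | zero => rfl
  | succ n ih =>
    change Jx x n ⊔ _ = Jx x' n ⊔ _
    rw [ih fun j hj => h j (by omega), h n (by omega)]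

/-- construction of regular sequences with prescribed values under the `h i`. -/
lemma exists_good [IsNoetherianRing S] [IsLocalRing S] {I : Ideal S} (hI : I ≠ ⊤) {n : ℕ}
    (hgr : ∀ i < n, Subsingleton (Ext (Qt I) (ModuleCat.of S S) i)) {r : ℕ}
    (h : Fin r → (I →ₗ[S] (S ⧸ I))) (v : ℕ → Fin r → S ⧸ I) (k : ℕ) (hk : k ≤ n)
    (hv : ∀ j < k, v j ∈ LinearMap.range (evI h)) :
    ∃ x : ℕ → S, ∃ hx : ∀ j < k, x j ∈ I, (∀ j (hj : j < k), evI h ⟨x j, hx j hj⟩ = v j) ∧
      ∀ j < k, IsSMulRegular (S ⧸ Jx x j) (x j) := by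
  induction k with
  | zero => exact ⟨0, by simp, by simp, by simp⟩
  | succ k ih =>
    obtain ⟨x, hx, hxv, hreg⟩ := ih (by omega) (fun j hj => hv j (by omega))
    obtain ⟨z, hzI, hz⟩ := exists_regular_mem hgr x k (by omega) hreg
    obtain ⟨⟨y, hyI⟩, hy⟩ := hv k (by omega)
    have hzm : z ∈ IsLocalRing.maximalIdeal S := IsLocalRing.le_maximalIdeal hI hzI
    obtain ⟨m, hm, hreg'⟩ := exists_pow_regular y z hzm hz
    have hmem : y + z ^ m ∈ I := I.add_mem hyI (I.pow_mem_of_mem hzI m (by omega))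
    have hval : evI h ⟨y + z ^ m, hmem⟩ = v k := by
      have h1 : (⟨y + z ^ m, hmem⟩ : I) = ⟨y, hyI⟩ + z ^ (m - 1) • ⟨z, hzI⟩ := by
        ext
        change y + z ^ m = y + z ^ (m - 1) * z
        rw [← pow_succ]
        congr 2
        omega
      rw [h1, map_add, map_smul, hy]
      have h2 : z ^ (m - 1) • evI h ⟨z, hzI⟩ = 0 := by
        ext i
        rw [Pi.smul_apply, Pi.zero_apply]
        obtain ⟨c, hc⟩ := Submodule.Quotient.mk_surjective _ (evI h ⟨z, hzI⟩ i)
        rw [← hc, ← Submodule.Quotient.mk_smul, Submodule.Quotient.mk_eq_zero, smul_eq_mul]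
        exact I.mul_mem_right _ (I.pow_mem_of_mem hzI _ (by omega))
      rw [h2, add_zero]
    let x' : ℕ → S := Function.update x k (y + z ^ m)
    have hx'k : x' k = y + z ^ m := Function.update_self _ _ _
    have hx'j : ∀ j < k, x' j = x j := fun j hj => Function.update_of_ne (by omega) _ _
    have hJ : ∀ j ≤ k, Jx x' j = Jx x j := fun j hj => Jx_congr _ _ _ fun i hi => hx'j i (by omega)
    have hx' : ∀ j < k + 1, x' j ∈ I := by
      intro j hj
      rcases Nat.lt_succ_iff_lt_or_eq.mp hj with h1 | h1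
      · rw [hx'j j h1]; exact hx j h1
      · rw [h1, hx'k]; exact hmem
    refine ⟨x', hx', ?_, ?_⟩
    · intro j hj
      rcases Nat.lt_succ_iff_lt_or_eq.mp hj with h1 | h1
      · rw [← hxv j h1]
        congr 2
        exact hx'j j h1
      · subst h1
        rw [← hval]
        congr 2
    · intro j hj
      rcases Nat.lt_succ_iff_lt_or_eq.mp hj with h1 | h1
      · rw [hx'j j h1, hJ j (by omega)]; exact hreg j h1
      · subst h1
        rw [hx'k, hJ j le_rfl]
        exact hreg'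

end Pool.Agent.Lib.Helper92
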